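import Pool.Agent.N763.P24.CP3
import Pool.Agent.N877.P24.Defs2

/-!
# P24x: the pairs proportional modulo `3`, norms `≡ 2 mod 12`
-/

set_option autoImplicit false

namespace Pool.Agent.N42.P24x

open Finset Matrix
open Pool.Agent.N877.P24
open Pool.Agent.Z700 (V3 vec cp hh fac)
open Pool.Agent.N763.P24 (cp3_eq cp3_zero prod_eq prod9 fact9_3 sq_mod3)

theorem t_CP3E (hPC : S_PCE) : S_CP3E := by
  intro n1 n2 b D hn1 h2 hb hD hDD
  obtain ⟨hs, h12⟩ := hn1
  have hcp := hPC n1 n2 b D hs (by omega) hD hDD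
  unfold le at hcp
  unfold le3
  rw [hcp, prod_eq (by omega : n1 % 3 = 2) D hD]
  have hb3 := sq_mod3 hb
  have h3D : 3 ∣ D := by
    have : (3 : ℤ) ∣ (D : ℤ) := by
      rw [hDD]
      have e : (n1 : ℤ) * n2 - b ^ 2 = ((n1 : ℤ) * n2 - 1) - (b ^ 2 - 1) := by ring
      rw [e]
      refine dvd_sub ?_ hb3
      obtain ⟨c, hc⟩ : ∃ c : ℤ, (n1 : ℤ) = 3 * c + 2 := ⟨n1 / 3, by omega⟩
      obtain ⟨d, hd⟩ : ∃ d : ℤ, (n2 : ℤ) = 3 * d + 2 := ⟨n2 / 3, by omega⟩
      rw [hc, hd]
      exact ⟨3 * c * d + 2 * c + 2 * d + 1, by ring⟩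
    exact_mod_cast this
  by_cases h9 : 9 ∣ D
  · obtain ⟨D', rfl⟩ := h9
    have hD' : 0 < D' := by omega
    have h3n : (3 : ℤ) ∣ b + 16 * b * n1 := by
      have e : b + 16 * b * (n1 : ℤ) = b * (1 + 16 * n1) := by ring
      rw [e]
      exact Dvd.dvd.mul_left (by omega) _
    obtain ⟨b', hb'⟩ := h3n
    have h9n : (9 : ℤ) ∣ n2 + 32 * b ^ 2 + 256 * b ^ 2 * n1 := by
      have hc : IsCoprime (9 : ℤ) n1 := by
        have : IsCoprime (3 : ℤ) n1 := by
          rw [Prime.coprime_iff_not_dvd Int.prime_three]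
          omega
        have h := IsCoprime.mul_left this this
        norm_num at h
        exact h
      refine hc.dvd_of_dvd_mul_left ?_
      have e : (n1 : ℤ) * (n2 + 32 * b ^ 2 + 256 * b ^ 2 * n1) =
          9 * (D' : ℤ) + (b + 16 * b * n1) ^ 2 := by
        push_cast at hDD
        rw [hDD]
        ring
      rw [e, hb']
      exact ⟨D' + b' ^ 2, by ring⟩
    obtain ⟨n2', hn2'⟩ := h9n
    have hn0 : 0 ≤ n2' := by
      have : 0 ≤ 9 * n2' := by
        rw [← hn2']
        positivity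
      omega
    obtain ⟨N2, rfl⟩ := Int.eq_ofNat_of_zero_le hn0
    have hc3 := cp3_eq n1 b n2 b' N2 hb hb'.symm hn2'.symm
    rw [hc3]
    have hDD' : (D' : ℤ) = n1 * N2 - b' ^ 2 := by
      have : 9 * (D' : ℤ) = 9 * (n1 * N2 - b' ^ 2) := by
        have e1 : (9 : ℤ) * (n1 * N2 - b' ^ 2) = n1 * (9 * N2) - (3 * b') ^ 2 := by ring
        push_cast at hDD
        rw [e1, ← hb', ← hn2', hDD]
        ring
      linarith
    have hcp' := hPC n1 N2 b' D' hs (by omega) hD' hDD'
    unfold le at hcp'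
    rw [hcp', prod_eq (by omega : n1 % 3 = 2) D' hD', prod9 n1 D' hD', fact9_3 D' hD']
    push_cast
    ring
  · have hz : cp3 n1 b n2 = 0 := by
      refine cp3_zero n1 b n2 hb ?_
      rw [← hDD]
      intro h
      exact h9 (by exact_mod_cast h)
    have hk : D.factorization 3 = 1 := by
      have k1 : 1 ≤ D.factorization 3 :=
        (Nat.Prime.dvd_iff_one_le_factorization (by norm_num) hD.ne').1 h3D
      have k2 : ¬ 2 ≤ D.factorization 3 := by
        intro h
        have := (Nat.Prime.pow_dvd_iff_le_factorization (p := 3) (by norm_num) hD.ne').2 h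
        norm_num at this
        exact h9 this
      omega
    rw [hz, hk]
    push_cast
    ring

end Pool.Agent.N42.P24x
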