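import Pool.Agent.N877.P24.Tor
import Pool.Agent.N877.P24.Defs2
import Pool.Agent.N916.RE.Fin

/-!
# Counting pairs of vectors of `ℤ³` with a given Gram matrix of determinant `m ≡ 2 mod 4`

Adapted from `N877/TF/Cnt.lean` and `N916/RE/Cn.lean`.
-/

set_option autoImplicit false

namespace Pool.Agent.N42.P24x

open Finset Matrix Pool.Agent.N877.TF
open Pool.Agent.N877.P24 (S1 B1 d1 nm1 pos1 sm sm_symm mem_vec)

/-- twice the standard form -/
def S2 : Co := ⟨2, 2, 2, 0, 0, 0⟩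

theorem B2 (v w : V) : S2.B v w = 2 * S1.B v w := by
  rw [B1]; simp only [Co.B, S2]; ring

theorem nm2 (v : V) : S2.nm v = 4 * S1.nm v := by
  rw [nm1]; simp only [Co.nm, S2]; ring

theorem pos2 : S2.Pos := by
  intro v hv
  rw [B2]
  have := pos1 v hv
  linarith

theorem even2 (v : V) : Even (S2.B v v) := ⟨S1.B v v, by rw [B2]; ring⟩

theorem mem_vec2 (m : ℕ) (v : V) : v ∈ Pool.Agent.Z700.vec (m : ℤ) ↔ S2.nm v = (4 * m : ℕ) := by
  rw [mem_vec, nm2, nm1]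
  push_cast
  constructor
  · intro h; rw [← h]; ring
  · intro h
    have h2 := mul_left_cancel₀ (four_ne_zero (α := ℤ)) h
    rw [← h2]; ring

/-- every Gram matrix of determinant one occurs 24 times -/
theorem fr24 {a b c p q r : ℤ} (ha : 0 < a) (hD : 0 < a * c - b ^ 2)
    (hdet : (a * c - b ^ 2) * r = 1 + (c * p ^ 2 - 2 * b * p * q + a * q ^ 2)) :
    Nat.card (S1.Fr a b c p q r) = 24 := by
  set M := sm a b c p q r with hM
  have hPos : Pool.Agent.Z700.PosM M := by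
    refine ⟨sm_symm _ _ _ _ _ _, by show 0 < a; linarith, ?_, ?_⟩
    · show 0 < a * c - b ^ 2
      linarith
    · rw [hM, sm, det_fin_three]
      show a * c * r - a * q * q - b * b * r + b * q * p + p * b * q - p * c * p = 1
      linear_combination hdet
  have h := Pool.Agent.Y288.Z7.t_TORS M hPos
  rw [← h]
  refine Nat.card_congr ?_
  have hdt : ∀ v w : V, Pool.Agent.Y288.Z7.dt v w = S1.B v w := fun v w => by
    rw [B1]; rfl
  have hdd : ∀ v w z : V, Pool.Agent.Y288.Z7.dd3 v w z = dt (crs v w) z := fun v w z => by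
    simp only [Pool.Agent.Y288.Z7.dd3, dt, crs]
    simp
    ring
  refine ⟨fun t => ⟨Pool.Agent.Y288.Z7.cols t.1.1 t.1.2.1 t.1.2.2, ?_⟩,
    fun A => ⟨(fun i => A.1 i 0, fun i => A.1 i 1, fun i => A.1 i 2), ?_⟩, ?_, ?_⟩
  · obtain ⟨⟨v, w, z⟩, h1, h2, h3, h4, h5, h6, h7⟩ := t
    refine ⟨(Pool.Agent.Y288.Z7.gram_iff v w z M (sm_symm _ _ _ _ _ _)).2 ?_, ?_⟩
    · simp only [hdt]
      exact ⟨h2, h3, h5, h4, h6, h7⟩
    · rw [Pool.Agent.Y288.Z7.det_cols, hdd]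
      exact h1
  · obtain ⟨A, hA, hAd⟩ := A
    rw [Pool.Agent.Y288.Z7.cols_eq A] at hA hAd
    rw [Pool.Agent.Y288.Z7.gram_iff _ _ _ M (sm_symm _ _ _ _ _ _)] at hA
    rw [Pool.Agent.Y288.Z7.det_cols, hdd] at hAd
    simp only [hdt] at hA
    exact ⟨hAd, hA.1, hA.2.1, hA.2.2.2.1, hA.2.2.1, hA.2.2.2.2.1, hA.2.2.2.2.2⟩
  · rintro ⟨⟨v, w, z⟩, h1⟩
    rfl
  · rintro ⟨A, hA⟩
    exact Subtype.ext (Pool.Agent.Y288.Z7.cols_eq A).symm

theorem card_PP1 {a b c : ℤ} {n : ℕ}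
    (hn : a * c - b ^ 2 = n) (ha : 0 < a) (hsq : Squarefree n)
    (hcop : IsCoprime a (n : ℤ)) :
    Nat.card (S1.PP a b c) = 24 * (Iu n a).card := by
  have hn0 : 0 < n := Nat.pos_of_ne_zero hsq.ne_zero
  have hnZ : (0 : ℤ) < n := by exact_mod_cast hn0
  have hab : IsCoprime a b := by
    have h1 : IsCoprime a (b ^ 2) := by
      obtain ⟨u, v, huv⟩ := hcop
      refine ⟨u + v * c, -v, ?_⟩
      rw [← hn] at huv
      linear_combination huv
    exact (IsCoprime.pow_right_iff (by norm_num)).1 h1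
  obtain ⟨k2, k1', hk'⟩ := hab
  obtain ⟨k1, hk1⟩ : ∃ k1, k1 = -k1' := ⟨_, rfl⟩
  have hk : a * k2 - b * k1 = 1 := by rw [hk1]; linear_combination hk'
  clear hk' hk1
  set κ : ℤ := c * k1 ^ 2 - 2 * b * k1 * k2 + a * k2 ^ 2 with hκ
  have hκ4 : a * κ = 1 + n * k1 ^ 2 := by
    have e1 : a * κ = (a * k2 - b * k1) ^ 2 + (a * c - b ^ 2) * k1 ^ 2 := by
      rw [hκ]; ring
    rw [e1, hk, hn]; ring
  have hdiv : ∀ u : ℤ, (n : ℤ) ∣ 1 + u ^ 2 * κ ↔ (n : ℤ) ∣ u ^ 2 + a := by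
    intro u
    have e1 : a * (1 + u ^ 2 * κ) = (u ^ 2 + a) + n * (k1 ^ 2 * u ^ 2) := by
      linear_combination u ^ 2 * hκ4
    constructor
    · intro h
      have h2 : (n : ℤ) ∣ a * (1 + u ^ 2 * κ) := Dvd.dvd.mul_left h _
      rw [e1] at h2
      exact (dvd_add_left (Dvd.intro _ rfl)).1 h2
    · intro h
      have h2 : (n : ℤ) ∣ a * (1 + u ^ 2 * κ) := by
        rw [e1]; exact dvd_add h (Dvd.intro _ rfl)
      exact hcop.symm.dvd_of_dvd_mul_left h2
  -- the frames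
  let r : ℤ → ℤ := fun u => (1 + u ^ 2 * κ) / n
  have hr : ∀ u : ℤ, (n : ℤ) ∣ u ^ 2 + a → (n : ℤ) * r u = 1 + u ^ 2 * κ :=
    fun u hu => Int.mul_ediv_cancel' ((hdiv u).2 hu)
  have hfr : ∀ u : {u : ℕ // u ∈ Iu n a},
      Nat.card (S1.Fr a b c (k1 * (u.1 : ℤ)) (k2 * (u.1 : ℤ)) (r (u.1 : ℤ))) = 24 := by
    rintro ⟨u, hu⟩
    apply fr24 ha (by rw [hn]; exact hnZ)
    rw [hn, hr u (Finset.mem_filter.1 hu).2, hκ]
    ring
  haveI : ∀ u : {u : ℕ // u ∈ Iu n a},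
      Finite (S1.Fr a b c (k1 * (u.1 : ℤ)) (k2 * (u.1 : ℤ)) (r (u.1 : ℤ))) := fun u =>
    Nat.finite_of_card_ne_zero (by rw [hfr u]; norm_num)
  have hsig : Nat.card (Σ u : {u : ℕ // u ∈ Iu n a},
      S1.Fr a b c (k1 * (u.1 : ℤ)) (k2 * (u.1 : ℤ)) (r (u.1 : ℤ))) =
      24 * (Iu n a).card := by
    rw [Nat.card_sigma, Finset.sum_congr rfl (fun x _ => hfr x), Finset.sum_const, smul_eq_mul,
      Finset.card_univ, Fintype.card_coe, mul_comm]
  rw [← hsig]
  symm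
  refine Nat.card_eq_of_bijective (fun t => (⟨(t.2.1.1, t.2.1.2.1), t.2.2.2.1, t.2.2.2.2.1,
    t.2.2.2.2.2.1⟩ : S1.PP a b c)) ⟨?_, ?_⟩
  · rintro ⟨⟨u, hu⟩, ⟨⟨x, y, z⟩, h1, h2, h3, h4, h5, h6, h7⟩⟩
      ⟨⟨u', hu'⟩, ⟨⟨x', y', z'⟩, g1, g2, g3, g4, g5, g6, g7⟩⟩ heq
    have e0 := congrArg Subtype.val heq
    simp only [Prod.mk.injEq] at e0
    obtain ⟨rfl, rfl⟩ := e0
    simp only at h1 h2 h3 h4 h5 h6 h7 g1 g2 g3 g4 g5 g6 g7
    -- the difference of the third vectors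
    obtain ⟨k, l, hkl⟩ := span_of (x := x) (y := y) (z := z) (u := z' - z) h1 (by
      have : dt (crs x y) (z' - z) = dt (crs x y) z' - dt (crs x y) z := by
        simp only [dt, Pi.sub_apply]; ring
      rw [this, h1, g1]; ring)
    have hz' : z' = z + k • x + l • y := by
      rw [add_assoc, ← hkl]; abel
    rw [hz', B_add, h2, h3, h5] at g5
    rw [hz', B_add, S1.B_comm y x, h3, h4, h6] at g6
    have hu1 : (u' : ℤ) - u = n * l := by
      rw [← hn]
      linear_combination -a * g6 + b * g5 + ((u : ℤ) - u') * hk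
    have hub : (u : ℤ) < n := by exact_mod_cast Finset.mem_range.1 (Finset.mem_filter.1 hu).1
    have hub' : (u' : ℤ) < n := by exact_mod_cast Finset.mem_range.1 (Finset.mem_filter.1 hu').1
    have hl : l = 0 := by
      by_contra hne
      rcases lt_or_gt_of_ne hne with h | h
      · have : l ≤ -1 := by omega
        nlinarith
      · have : 1 ≤ l := by omega
        nlinarith
    subst hl
    have huu : u = u' := by
      have : (u' : ℤ) = u := by linarith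
      exact_mod_cast this.symm
    subst huu
    have hk0 : k = 0 := by
      have : a * k = 0 := by linarith
      rcases mul_eq_zero.1 this with h | h
      · exfalso; linarith
      · exact h
    subst hk0
    have : z' = z := by rw [hz']; simp
    subst this
    rfl
  · rintro ⟨⟨x, y⟩, h2, h3, h4⟩
    simp only at h2 h3 h4
    have hv : S1.nm (crs x y) = n := by
      rw [S1.lagrange, h2, h3, h4, ← hn]
    obtain ⟨z0, hz0⟩ := prim_of_sqfree S1 hsq hv
    obtain ⟨u0, hu0⟩ : ∃ u0, u0 = a * S1.B y z0 - b * S1.B x z0 := ⟨_, rfl⟩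
    obtain ⟨l, hl⟩ : ∃ l, l = u0 / n := ⟨_, rfl⟩
    have hmod := Int.emod_add_mul_ediv u0 n
    have hm0 := Int.emod_nonneg u0 hnZ.ne'
    have hm1 := Int.emod_lt_of_pos u0 hnZ
    obtain ⟨u, hu⟩ : ∃ u : ℕ, (u : ℤ) = u0 % n := ⟨_, Int.toNat_of_nonneg hm0⟩
    rw [← hu] at hmod hm1
    rw [← hl] at hmod
    -- first adjustment
    obtain ⟨p1, hp1⟩ : ∃ p1, p1 = S1.B x z0 - l * b := ⟨_, rfl⟩
    obtain ⟨q1, hq1⟩ : ∃ q1, q1 = S1.B y z0 - l * c := ⟨_, rfl⟩
    have hpq : a * q1 - b * p1 = u := by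
      rw [hp1, hq1]
      linear_combination -hu0 - hmod - l * hn
    have hpq' : a * (q1 - k2 * u) = b * (p1 - k1 * u) := by
      linear_combination hpq - (u : ℤ) * hk
    have hab : IsCoprime a b := ⟨k2, -k1, by linear_combination hk⟩
    obtain ⟨m, hm⟩ : a ∣ p1 - k1 * u := hab.dvd_of_dvd_mul_left (Dvd.intro _ hpq')
    have hqm : q1 - k2 * u = b * m := by
      apply mul_left_cancel₀ ha.ne'
      rw [hpq', hm]; ring
    set z : V := z0 + (-l) • y + (-m) • x with hz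
    have hB1 : S1.B x z = k1 * u := by
      rw [hz, B_add, h2, h3]
      linear_combination hm - hp1
    have hB2 : S1.B y z = k2 * u := by
      rw [hz, B_add, S1.B_comm y x, h3, h4]
      linear_combination hqm - hq1
    have hdz : dt (crs x y) z = 1 := by
      rw [hz, dt_add, dt_crs_left, dt_crs_right, hz0]; ring
    have hg := S1.gram_det x y z
    rw [h2, h3, h4, hB1, hB2, hdz, d1] at hg
    have hg' : (n : ℤ) * S1.B z z = 1 + (u : ℤ) ^ 2 * κ := by
      rw [← hn, hκ]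
      linear_combination hg
    have hmem : u ∈ Iu n a := by
      rw [Iu, Finset.mem_filter, Finset.mem_range]
      exact ⟨by exact_mod_cast hm1, (hdiv u).1 ⟨_, hg'.symm⟩⟩
    refine ⟨⟨⟨u, hmem⟩, ⟨(x, y, z), hdz, h2, h3, h4, hB1, hB2, ?_⟩⟩, rfl⟩
    have h5 := hr u (Finset.mem_filter.1 hmem).2
    have h6 : (n : ℤ) * S1.B z z = n * r u := by rw [h5, hg']
    exact mul_left_cancel₀ hnZ.ne' h6

theorem card_PP12 (a b c : ℤ) : Nat.card (S2.PP (2 * a) (2 * b) (2 * c)) =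
    Nat.card (S1.PP a b c) := by
  refine Nat.card_congr (Equiv.subtypeEquivRight fun q => ?_)
  rw [B2, B2, B2]
  constructor
  · rintro ⟨h1, h2, h3⟩
    exact ⟨by linarith, by linarith, by linarith⟩
  · rintro ⟨h1, h2, h3⟩
    exact ⟨by linarith, by linarith, by linarith⟩

/-- the number of square roots of `-a` modulo `m = 2 M` -/
theorem card_Iu2 {m : ℕ} (hsq : Squarefree m) (hm : m % 4 = 2) {a : ℤ} (ha : 0 < a)
    (hodd : Odd a) : ((Iu m a).card : ℤ) = ∏ p ∈ m.primeFactors.erase 2, (1 + jacobiSym (-a) p) := by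
  obtain ⟨M, hM⟩ : ∃ M, m = 2 * M := ⟨m / 2, by omega⟩
  have hM2 : Odd M := Nat.odd_iff.2 (by omega)
  have hsM : Squarefree M := hsq.squarefree_of_dvd ⟨2, by rw [hM]; ring⟩
  have hM0 : M ≠ 0 := hsM.ne_zero
  have hpf : m.primeFactors.erase 2 = M.primeFactors := by
    rw [hM, Nat.primeFactors_mul (by norm_num) hM0, Nat.Prime.primeFactors Nat.prime_two]
    ext p
    simp only [mem_erase, mem_union, mem_singleton]
    constructor
    · rintro ⟨h1, h2 | h2⟩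
      · exact absurd h2 h1
      · exact h2
    · intro h
      refine ⟨?_, Or.inr h⟩
      rintro rfl
      have := Nat.dvd_of_mem_primeFactors h
      obtain ⟨k, hk⟩ := hM2
      omega
  rw [hpf, ← card_Iu hsM hM2 ha]
  congr 1
  have hcop : Nat.Coprime 2 M := Nat.coprime_two_left.2 hM2
  obtain ⟨j, hj⟩ := hodd
  refine Finset.card_bij' (fun u _ => u % M)
    (fun v _ => (Nat.chineseRemainder hcop 1 v : ℕ)) ?_ ?_ ?_ ?_
  · intro u hu
    rw [Iu, mem_filter, mem_range] at hu ⊢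
    refine ⟨Nat.mod_lt _ (Nat.pos_of_ne_zero hM0), ?_⟩
    have h1 : (M : ℤ) ∣ (u : ℤ) ^ 2 + a := (show (M : ℤ) ∣ (m : ℤ) from ⟨2, by rw [hM]; push_cast; ring⟩).trans hu.2
    have h2 : ((u % M : ℕ) : ℤ) = u - M * (u / M : ℕ) := by
      have := Nat.mod_add_div u M
      have h3 : ((u % M : ℕ) : ℤ) + M * (u / M : ℕ) = u := by exact_mod_cast this
      linarith
    rw [h2]
    have h3 : ((u : ℤ) - M * (u / M : ℕ)) ^ 2 + a = ((u : ℤ) ^ 2 + a) +
        M * (-(2 * u * (u / M : ℕ)) + M * ((u / M : ℕ) : ℤ) ^ 2) := by ring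
    rw [h3]
    exact dvd_add h1 (Dvd.intro _ rfl)
  · intro v hv
    rw [Iu, mem_filter, mem_range] at hv ⊢
    have c1 := (Nat.chineseRemainder hcop 1 v).2.1
    have c2 := (Nat.chineseRemainder hcop 1 v).2.2
    have c3 := Nat.chineseRemainder_lt_mul hcop 1 v (by norm_num) hM0
    refine ⟨by rw [hM]; exact c3, ?_⟩
    generalize ((Nat.chineseRemainder hcop 1 v : ℕ)) = u at c1 c2 c3
    have hcopZ : IsCoprime (2 : ℤ) (M : ℤ) := by
      have := Nat.isCoprime_iff_coprime.2 hcop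
      exact_mod_cast this
    have e : (m : ℤ) = 2 * M := by rw [hM]; push_cast; ring
    rw [e]
    refine hcopZ.mul_dvd ?_ ?_
    · have h1 : u % 2 = 1 := c1
      obtain ⟨w, hw⟩ : ∃ w, u = 2 * w + 1 := ⟨u / 2, by omega⟩
      rw [hw, hj]
      push_cast
      exact ⟨2 * w ^ 2 + 2 * w + j + 1, by ring⟩
    · have h1 : (M : ℤ) ∣ (v : ℤ) - u := Nat.modEq_iff_dvd.1 c2
      have h3 : (u : ℤ) ^ 2 + a = ((v : ℤ) ^ 2 + a) - ((v : ℤ) - u) * (v + u) := by ring
      rw [h3]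
      exact dvd_sub hv.2 (Dvd.dvd.mul_right h1 _)
  · intro u hu
    rw [Iu, mem_filter, mem_range] at hu
    have c1 := (Nat.chineseRemainder hcop 1 (u % M)).2.1
    have c2 := (Nat.chineseRemainder hcop 1 (u % M)).2.2
    have c3 := Nat.chineseRemainder_lt_mul hcop 1 (u % M) (by norm_num) hM0
    have hu2 : u % 2 = 1 := by
      have h1 : (2 : ℤ) ∣ (u : ℤ) ^ 2 + a := (show (2 : ℤ) ∣ (m : ℤ) from ⟨M, by rw [hM]; push_cast; ring⟩).trans hu.2
      by_contra hne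
      obtain ⟨w, hw⟩ : ∃ w, u = 2 * w := ⟨u / 2, by omega⟩
      rw [hw, hj] at h1
      have : (2 : ℤ) ∣ 1 := by
        have e : (((2 * w : ℕ) : ℤ) ^ 2 + (2 * j + 1)) = 2 * (2 * (w : ℤ) ^ 2 + j) + 1 := by
          push_cast; ring
        rw [e] at h1
        exact (dvd_add_right (Dvd.intro _ rfl)).1 h1
      norm_num at this
    have h5 := (Nat.modEq_and_modEq_iff_modEq_mul hcop).1
      ⟨c1.trans (show 1 % 2 = u % 2 by rw [hu2]), c2.trans (Nat.mod_modEq u M)⟩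
    exact Nat.ModEq.eq_of_lt_of_lt h5 c3 (by rw [← hM]; exact hu.1)
  · intro v hv
    rw [Iu, mem_filter, mem_range] at hv
    have c2 := (Nat.chineseRemainder hcop 1 v).2.2
    exact Nat.mod_eq_of_modEq c2 hv.1

end Pool.Agent.N42.P24x
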