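import Pool.Agent.N42.P24x.Ext

/-!
# P24x: divisibility of the sums of local densities over the divisors, even discriminants
-/

set_option autoImplicit false

namespace Pool.Agent.N42.P24x

open Finset
open Pool.Agent.Z700 (hh fac)
open Pool.Agent.N871.P15 (Sg XS XS_dvd XS_sub sum_div)
open Pool.Agent.N878.P24 (ee T0 mem_T0 mem_T0' GG Hy js_prod js_sg prime_not_dvd_prod c4 c8 c3
  c4_prod c8_prod c3_prod c4_one c4_three c8_eq c3_eq c4_sg c8_sg c3_sg chi ex sg YY not_mem_T0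
  prod_T0 I2 I3 XS_2 XS_3 I2_sub recip j3 jneg jtwo sq_sg pow_odd' pow_even' jexp mod8 c4_8 c8_8
  c4v c8v jac_prod_right jac_fact jac_one geo_neg js_sg' sg_of_ne Hz odd_dvd prod_dvd
  fact_nine T0_nine YY_nine hy_of hz_of)

section pf

variable {q m D d : ℕ}

theorem dat (hm : Squarefree m) (h2 : ¬ 2 ∣ m) (h3 : ¬ 3 ∣ m) (hy : Hy q m D) (hz : Hz m D)
    (hD : D ≠ 0) (hv : D.factorization 2 = 1) (hd : d ∣ m) {α β : ℕ}
    (h : GG (3 ^ α * 2 ^ β * d) D ≠ 0) : ∃ N0 N1 M : ℕ, d = N0 * N1 ∧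
      D = 3 ^ D.factorization 3 * 2 ^ 1 * (N1 * M) ∧
      Dat N0 N1 M α β (D.factorization 3) := by
  refine dat_of (hm.squarefree_of_dvd hd) (fun h => h2 (h.trans hd)) (fun h => h3 (h.trans hd)) hD
    hv ?_ ?_ h
  · intro l hl hld hlD
    exact (hy l hl (fun h => h2 ((h ▸ hld).trans hd)) (fun h => h3 ((h ▸ hld).trans hd)) hlD
      (hld.trans hd)).1
  · intro l hl hld hlD
    exact hz l hl (hld.trans hd) hlD

theorem pf7 (hm : Squarefree m) (h2 : ¬ 2 ∣ m) (h3 : ¬ 3 ∣ m) (hy : Hy q m D) (hz : Hz m D)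
    (hD : D ≠ 0) (hv : D.factorization 2 = 1) (hd : d ∣ m) (hw : Even (D.factorization 3))
    (h7 : d % 8 = 7) : GG d D = 0 := by
  by_contra h
  have e : d = 3 ^ 0 * 2 ^ 0 * d := by rw [pow_zero, pow_zero, one_mul, one_mul]
  rw [e] at h
  obtain ⟨N0, N1, M, e1, e2, e3⟩ := dat hm h2 h3 hy hz hD hv hd h
  exact e3.seven hw (e1 ▸ h7)

/-- the residue class of `D / 2` -/
theorem half_mod {D u w x r : ℕ} (h : D = 3 ^ w * 2 ^ 1 * x) (hu : D = 2 * u)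
    (hr : (u + 2) % 8 = r % 8) : (3 ^ w * x + 2) % 8 = r % 8 := by
  have : u = 3 ^ w * x := by
    have : 2 * u = 2 * (3 ^ w * x) := by rw [← hu, h]; ring
    omega
  rw [← this, hr]

theorem pfA (hm : Squarefree m) (h2 : ¬ 2 ∣ m) (h3 : ¬ 3 ∣ m) (hy : Hy q m D) (hz : Hz m D)
    (hD : D ≠ 0) (hv : D.factorization 2 = 1) (hd : d ∣ m) (hw : Odd (D.factorization 3))
    {u r : ℕ} (hu : D = 2 * u) (hr : (u + 2) % 8 = r % 8)
    (h7 : d % 8 = (3 * r) % 8) (h : GG (2 * d) D ≠ 0) : c3 d = 1 := by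
  have e : 2 * d = 3 ^ 0 * 2 ^ 1 * d := by rw [pow_zero, pow_one, one_mul]
  rw [e] at h
  obtain ⟨N0, N1, M, e1, e2, e3⟩ := dat hm h2 h3 hy hz hD hv hd h
  rw [e1]
  exact e3.lemA hw (e1 ▸ h7) (half_mod e2 hu hr)

theorem pfA' (hm : Squarefree m) (h2 : ¬ 2 ∣ m) (h3 : ¬ 3 ∣ m) (hy : Hy q m D) (hz : Hz m D)
    (hD : D ≠ 0) (hv : D.factorization 2 = 1) (hd : d ∣ m) (hw : D.factorization 3 = 1)
    {u r : ℕ} (hu : D = 2 * u) (hr : (u + 2) % 8 = r % 8)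
    (h7 : d % 8 = (3 * r) % 8) : fac (2 * d) D 3 * GG (2 * d) D = 2 * GG (2 * d) D := by
  by_cases h : GG (2 * d) D = 0
  · rw [h]; ring
  congr 1
  have h9 := pfA hm h2 h3 hy hz hD hv hd (by rw [hw]; decide) hu hr h7 h
  have hd3 : ¬ 3 ∣ 2 * d := by
    intro h
    have : 3 ∣ d := (Nat.Coprime.dvd_of_dvd_mul_left (by norm_num) h)
    exact h3 (this.trans hd)
  rw [fac, if_neg hd3, hw, Finset.sum_range_succ, Finset.sum_range_one, pow_zero, pow_one]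
  have e : (-((2 * d : ℕ) : ℤ)) = (-2) * (d : ℤ) := by push_cast; ring
  have m2 : jacobiSym (-2 : ℤ) 3 = 1 := by norm_num
  have e7 : jacobiSym (d : ℤ) 3 = c3 d := rfl
  rw [e, jacobiSym.mul_left, m2, e7, h9]
  norm_num

theorem pfB (hm : Squarefree m) (h2 : ¬ 2 ∣ m) (h3 : ¬ 3 ∣ m) (hy : Hy q m D) (hz : Hz m D)
    (hD : D ≠ 0) (hv : D.factorization 2 = 1) (hd : d ∣ m)
    {u r : ℕ} (hu : D = 2 * u) (hr : (u + 2) % 8 = r % 8)
    (h7 : d % 8 = r % 8) : fac (6 * d) D 3 * GG (6 * d) D = 2 * GG (6 * d) D := by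
  by_cases h : GG (6 * d) D = 0
  · rw [h]; ring
  congr 1
  have h' : GG (3 ^ 1 * 2 ^ 1 * d) D ≠ 0 := by rw [pow_one, pow_one]; exact h
  obtain ⟨N0, N1, M, e1, e2, e3⟩ := dat hm h2 h3 hy hz hD hv hd h'
  have h9 := e3.lemB (e1 ▸ h7) (half_mod e2 hu hr)
  rw [← e1] at h9
  set w := D.factorization 3 with hwd
  have e4 : D / 3 ^ w = 2 * (N1 * M) := by
    have : D = 3 ^ w * (2 * (N1 * M)) := by rw [← mul_assoc]; exact e2
    calc D / 3 ^ w = 3 ^ w * (2 * (N1 * M)) / 3 ^ w := by rw [← this]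
      _ = _ := Nat.mul_div_cancel_left _ (by positivity)
  have m1 : jacobiSym (-2 : ℤ) 3 = 1 := by norm_num
  have m4 : jacobiSym (-4 : ℤ) 3 = -1 := by norm_num
  have hs : Sg (c3 d) := c3_sg (fun h => h3 (h.trans hd))
  have e6 : 6 * d / 3 = 2 * d := by omega
  rw [fac, if_pos ⟨2 * d, by ring⟩, hh, ← hwd, e4, e6]
  split_ifs with hw
  · rw [if_pos hw] at h9
    have e5 : (-((2 * (N1 * M) : ℕ) : ℤ)) = (-2) * ((N1 : ℤ) * (M : ℤ)) := by
      push_cast; ring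
    have : jacobiSym (N1 : ℤ) 3 * jacobiSym (M : ℤ) 3 = 1 := by
      rw [mul_comm]; exact h9
    rw [e5, jacobiSym.mul_left, jacobiSym.mul_left, m1, this]
    norm_num
  · rw [if_neg hw] at h9
    have e5 : (-((2 * d * (2 * (N1 * M)) : ℕ) : ℤ)) = (-4) * ((d : ℤ) * ((M : ℤ) * (N1 : ℤ))) := by
      push_cast; ring
    have h10 : jacobiSym (M : ℤ) 3 * jacobiSym (N1 : ℤ) 3 = - jacobiSym (d : ℤ) 3 := h9
    rw [e5, jacobiSym.mul_left, jacobiSym.mul_left, jacobiSym.mul_left, m4, h10]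
    have h11 : jacobiSym (d : ℤ) 3 * jacobiSym (d : ℤ) 3 = 1 := sq_sg hs
    linear_combination h11

end pf

/-- the divisibility for the first relation -/
theorem div2 {q m D : ℕ} (hq : q ∣ 6) (hm : Squarefree m) (h2 : ¬ 2 ∣ m) (h3 : ¬ 3 ∣ m)
    (hy : Hy q m D) {a a' r r' : ℕ} (ha : a ∣ 6) (ha' : a' ∣ 6)
    (hr : r = 1 ∨ r = 3 ∨ r = 5 ∨ r = 7) (hr' : r' = 1 ∨ r' = 3 ∨ r' = 5 ∨ r' = 7) :
    (2 : ℤ) ^ (m.primeFactors.card + 1) ∣
      4 * (∑ d ∈ m.divisors.filter (fun d => d % 8 = r), GG (a * d) D +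
        ∑ d ∈ m.divisors.filter (fun d => d % 8 = r'), GG (a' * d) D) := by
  have k1 := cmp2 (D := D) hq hm h2 h3 ha ha' hr hr' (fun d => GG (a * d) D)
    (fun d => GG (a' * d) D) (fun S hS => GG_eq hy ha hS) (fun S hS => GG_eq hy ha' hS)
  have k2 := dvd2 (D := D) hq hm h2 h3 (a := a') hr' (fun d => GG (a' * d) D)
    (fun S hS => GG_eq hy ha' hS)
  obtain ⟨x, hx⟩ := k1
  obtain ⟨y, hy⟩ := k2
  refine ⟨x + y, ?_⟩
  have e : (2 : ℤ) ^ (m.primeFactors.card + 1) * (x + y) =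
    2 ^ (m.primeFactors.card + 1) * x + 2 * (2 ^ m.primeFactors.card * y) := by
    rw [pow_succ]; ring
  rw [e, ← hx, ← hy]
  ring

/-- the divisibility for the second relation -/
theorem div6 {m E u r : ℕ} (hm : Squarefree m) (h2 : ¬ 2 ∣ m) (h3 : ¬ 3 ∣ m) (hE : E ≠ 0)
    (hy9 : Hy 2 m (9 * E)) (hy : Hy 2 m E) (hz : Hz m E) (hv : E.factorization 2 = 1)
    (hu : E = 2 * u) (hr : (u + 2) % 8 = r % 8) (hr2 : r % 2 = 1) :
    (2 : ℤ) ^ (m.primeFactors.card + 1) ∣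
      4 * (∑ d ∈ m.divisors.filter (fun d => d % 8 = r % 8), GG (6 * d) (9 * E)) -
        4 * ((E.factorization 3 : ℤ) *
          ∑ d ∈ m.divisors.filter (fun d => d % 8 = (3 * r) % 8 ∧ d % 3 = 1), GG (2 * d) E) := by
  have hr8 : r % 8 = 1 ∨ r % 8 = 3 ∨ r % 8 = 5 ∨ r % 8 = 7 := by omega
  have hr8' : (3 * r) % 8 = 1 ∨ (3 * r) % 8 = 3 ∨ (3 * r) % 8 = 5 ∨ (3 * r) % 8 = 7 := by omega
  have h7 : (7 : ℕ) = 1 ∨ (7 : ℕ) = 3 ∨ (7 : ℕ) = 5 ∨ (7 : ℕ) = 7 := by omega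
  have ha1 : 1 ∣ 6 := by norm_num
  have ha2 : 2 ∣ 6 := by norm_num
  have ha6 : 6 ∣ 6 := dvd_rfl
  set g := ∑ d ∈ m.divisors.filter (fun d => d % 8 = (3 * r) % 8 ∧ d % 3 = 1), GG (2 * d) E with hg
  set f := ∑ d ∈ m.divisors.filter (fun d => d % 8 = r % 8), GG (6 * d) (9 * E) with hf
  have F6 : ∀ S ∈ m.primeFactors.powerset,
      (fun d => GG (6 * d) (9 * E)) (∏ p ∈ S, p) = YY 2 m E 6 S := by
    intro S hS
    rw [← YY_nine hE]
    exact GG_eq hy9 ha6 hS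
  have F2 : ∀ S ∈ m.primeFactors.powerset,
      (fun d => GG (2 * d) E) (∏ p ∈ S, p) = YY 2 m E 2 S := fun S hS => GG_eq hy ha2 hS
  have F1 : ∀ S ∈ m.primeFactors.powerset,
      (fun d => GG d E) (∏ p ∈ S, p) = YY 2 m E 1 S := by
    intro S hS
    have := GG_eq hy ha1 hS
    rwa [one_mul] at this
  rcases Nat.even_or_odd (E.factorization 3) with hw | hw
  · have z7 : ∑ d ∈ m.divisors.filter (fun d => d % 8 = 7), GG d E = 0 := by
      refine Finset.sum_eq_zero fun d hd => ?_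
      rw [Finset.mem_filter, Nat.mem_divisors] at hd
      exact pf7 hm h2 h3 hy hz hE hv hd.1.1 hw hd.2
    have z7' : ∑ d ∈ m.divisors.filter (fun d => d % 8 = 7 ∧ d % 3 = 1), GG d E = 0 := by
      refine Finset.sum_eq_zero fun d hd => ?_
      rw [Finset.mem_filter, Nat.mem_divisors] at hd
      exact pf7 hm h2 h3 hy hz hE hv hd.1.1 hw hd.2.1
    have k1 := cmp2 (D := E) ha2 hm h2 h3 ha6 ha1 hr8 h7
      (fun d => GG (6 * d) (9 * E)) (fun d => GG d E) F6 F1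
    have k2 := cmp3 (D := E) ha2 hm h2 h3 ha2 ha1 hr8' h7
      (Or.inl rfl : (1 : ℕ) = 1 ∨ 1 = 2) (Or.inl rfl : (1 : ℕ) = 1 ∨ 1 = 2)
      (fun d => GG (2 * d) E) (fun d => GG d E) F2 F1
    rw [z7, mul_zero, sub_zero, ← hf] at k1
    rw [z7', mul_zero, sub_zero, ← hg] at k2
    obtain ⟨v, hv'⟩ := hw
    have e : 4 * f - 4 * ((E.factorization 3 : ℤ) * g) = 4 * f - v * (8 * g) := by
      rw [hv']; push_cast; ring
    rw [e]
    exact dvd_sub k1 (Dvd.dvd.mul_left k2 _)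
  · have z3 : ∑ d ∈ m.divisors.filter (fun d => d % 8 = (3 * r) % 8), GG (2 * d) E = g := by
      rw [hg, ← Finset.filter_filter]
      symm
      refine Finset.sum_subset (Finset.filter_subset _ _) ?_
      intro d hd hd'
      rw [Finset.mem_filter] at hd'
      have hd3 : ¬ d % 3 = 1 := fun h => hd' ⟨hd, h⟩
      rw [Finset.mem_filter, Nat.mem_divisors] at hd
      by_contra hne
      have h9 := pfA hm h2 h3 hy hz hE hv hd.1.1 hw hu hr hd.2 hne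
      rw [c3_eq] at h9
      split_ifs at h9
      omega
    have k1 := cmp2 (D := E) ha2 hm h2 h3 ha6 ha2 hr8 hr8'
      (fun d => GG (6 * d) (9 * E)) (fun d => GG (2 * d) E) F6 F2
    have k2 := dvd2 (D := E) ha2 hm h2 h3 (a := 2) hr8' (fun d => GG (2 * d) E) F2
    rw [z3] at k2
    rw [z3, ← hf] at k1
    obtain ⟨v, hv'⟩ := hw
    have e : 4 * f - 4 * ((E.factorization 3 : ℤ) * g) = (4 * f - 4 * g) - (2 * (4 * g)) * v := by
      rw [hv']; push_cast; ring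
    rw [e]
    refine dvd_sub k1 (Dvd.dvd.mul_right ?_ _)
    rw [pow_succ, mul_comm]
    exact mul_dvd_mul_left 2 k2

end Pool.Agent.N42.P24x
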