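import Pool.Agent.N42.P24x.Loc

/-!
# P24x: consequences of the product formula, even discriminants
-/

set_option autoImplicit false

namespace Pool.Agent.N42.P24x

open Finset
open Pool.Agent.Z700 (hh fac)
open Pool.Agent.N871.P15 (Sg XS XS_dvd XS_sub sum_div)
open Pool.Agent.N878.P24 (ee T0 mem_T0 mem_T0' GG Hy js_prod js_sg prime_not_dvd_prod c4 c8 c3
  c4_prod c8_prod c3_prod c4_one c4_three c8_eq c3_eq c4_sg c8_sg c3_sg chi ex sg YY not_mem_T0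
  prod_T0 I2 I3 XS_2 XS_3 I2_sub recip j3 jneg jtwo sq_sg pow_odd' pow_even' jexp mod8 c4_8 c8_8
  c4v c8v jac_prod_right jac_fact jac_one geo_neg js_sg' sg_of_ne Hz odd_dvd prod_dvd
  fact_nine T0_nine YY_nine)

theorem three_pow_even {w : ℕ} (hw : Even w) : 3 ^ w % 8 = 1 := by
  obtain ⟨k, rfl⟩ := hw
  rw [← two_mul, pow_mul, Nat.pow_mod]
  norm_num

theorem three_pow_odd {w : ℕ} (hw : Odd w) : 3 ^ w % 8 = 3 := by
  obtain ⟨k, rfl⟩ := hw
  rw [pow_succ, pow_mul, Nat.mul_mod, Nat.pow_mod]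
  norm_num

theorem modh {t k x y : ℕ} (ht : t % 8 = k) :
    (t * (x * y) + 2) % 8 = (k * ((x % 8) * (y % 8)) + 2) % 8 := by
  have h : t * (x * y) + 2 ≡ k * ((x % 8) * (y % 8)) + 2 [MOD 8] :=
    Nat.ModEq.add_right 2 (Nat.ModEq.mul (by rw [← ht]; exact (Nat.mod_modEq _ _).symm)
      (Nat.ModEq.mul (Nat.mod_modEq _ _).symm (Nat.mod_modEq _ _).symm))
  exact h

theorem Dat.seven {N0 N1 M w : ℕ} (h : Dat N0 N1 M 0 0 w) (hw : Even w)
    (h7 : (N0 * N1) % 8 = 7) : False := by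
  have hp := h.prod
  have s1 : Sg (c3 N1 * c4 N1) := (c3_sg h.t1).mul (c4_sg h.o1)
  have s0 : Sg (c3 N0 * c4 N0) := (c3_sg h.t0).mul (c4_sg h.o0)
  rw [zero_add, pow_zero, pow_even' s1 hw, pow_even' s0 hw] at hp
  obtain ⟨a1, a3, a5, a7⟩ := c4v
  obtain ⟨b1, b3, b5, b7⟩ := c8v
  rw [Nat.mul_mod] at h7
  rcases mod8 h.oM with hM | hM | hM | hM <;> rcases mod8 h.o0 with h0 | h0 | h0 | h0 <;>
    rcases mod8 h.o1 with h1 | h1 | h1 | h1 <;> rw [h0, h1] at h7 <;>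
    first
    | (exfalso; revert h7; norm_num; done)
    | (rw [c4_8 hM, c4_8 h0, c4_8 h1, c8_8 h0, c8_8 h1] at hp
       simp only [a1, a3, a5, a7, b1, b3, b5, b7, show M % 4 = (M % 8) % 4 by omega,
         show N0 % 4 = (N0 % 8) % 4 by omega, show N1 % 4 = (N1 % 8) % 4 by omega, hM, h0, h1] at hp
       norm_num at hp)

/-- `β = 1`, `α = 0`, `w` odd -/
theorem Dat.lemA {N0 N1 M w r : ℕ} (h : Dat N0 N1 M 0 1 w) (hw : Odd w)
    (h7 : (N0 * N1) % 8 = (3 * r) % 8) (hu : (3 ^ w * (N1 * M) + 2) % 8 = r % 8) :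
    c3 (N0 * N1) = 1 := by
  have hp := h.prod
  have s1 : Sg (c3 N1 * c4 N1) := (c3_sg h.t1).mul (c4_sg h.o1)
  have s0 : Sg (c3 N0 * c4 N0) := (c3_sg h.t0).mul (c4_sg h.o0)
  have sM : Sg (c8 M) := c8_sg h.oM
  have s8 : Sg (c8 N1) := c8_sg h.o1
  rw [zero_add, pow_zero, pow_odd' s1 hw, pow_odd' s0 hw, pow_one,
    pow_even' s8 (by decide : Even (1 + 1))] at hp
  have e : c3 (N0 * N1) = c3 N0 * c3 N1 := by
    unfold c3; rw [Nat.cast_mul, jacobiSym.mul_left]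
  rw [e]
  obtain ⟨a1, a3, a5, a7⟩ := c4v
  obtain ⟨b1, b3, b5, b7⟩ := c8v
  have h9 : (N0 % 8) * (N1 % 8) % 8 = (3 * ((3 * ((N1 % 8) * (M % 8)) + 2) % 8)) % 8 := by
    rw [← Nat.mul_mod, h7, ← modh (three_pow_odd hw), hu]
    omega
  rcases mod8 h.oM with hM | hM | hM | hM <;> rcases mod8 h.o0 with h0 | h0 | h0 | h0 <;>
    rcases mod8 h.o1 with h1 | h1 | h1 | h1 <;> rw [h0, h1, hM] at h9 <;>
    first
    | (exfalso; revert h9; norm_num; done)
    | (rw [c4_8 hM, c4_8 h0, c4_8 h1, c8_8 h0, c8_8 hM] at hp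
       simp only [a1, a3, a5, a7, b1, b3, b5, b7, show M % 4 = (M % 8) % 4 by omega,
         show N0 % 4 = (N0 % 8) % 4 by omega, show N1 % 4 = (N1 % 8) % 4 by omega, hM, h0, h1] at hp
       norm_num at hp
       linarith)

/-- `β = 1`, `α = 1` -/
theorem Dat.lemB {N0 N1 M w r : ℕ} (h : Dat N0 N1 M 1 1 w)
    (h7 : (N0 * N1) % 8 = r % 8) (hu : (3 ^ w * (N1 * M) + 2) % 8 = r % 8) :
    c3 M * c3 N1 = if Even w then 1 else - c3 (N0 * N1) := by
  have hp := h.prod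
  have s1 : Sg (c3 N1 * c4 N1) := (c3_sg h.t1).mul (c4_sg h.o1)
  have s0 : Sg (c3 N0 * c4 N0) := (c3_sg h.t0).mul (c4_sg h.o0)
  have s8 : Sg (c8 N1) := c8_sg h.o1
  have q0 := sq_sg (c3_sg h.t0)
  have q1 := sq_sg (c3_sg h.t1)
  have qM := sq_sg (c3_sg h.tM)
  have e : c3 (N0 * N1) = c3 N0 * c3 N1 := by
    unfold c3; rw [Nat.cast_mul, jacobiSym.mul_left]
  rw [e]
  obtain ⟨a1, a3, a5, a7⟩ := c4v
  obtain ⟨b1, b3, b5, b7⟩ := c8v
  rw [pow_one, pow_one, pow_add, pow_one, pow_even' s8 (by decide : Even (1 + 1))] at hp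
  rcases Nat.even_or_odd w with hw | hw
  · rw [pow_even' s1 hw, pow_even' s0 hw] at hp
    rw [if_pos hw]
    have h9 : (N0 % 8) * (N1 % 8) % 8 = (((N1 % 8) * (M % 8)) + 2) % 8 := by
      rw [← Nat.mul_mod, h7, ← hu, modh (three_pow_even hw), one_mul]
    rcases mod8 h.oM with hM | hM | hM | hM <;> rcases mod8 h.o0 with h0 | h0 | h0 | h0 <;>
      rcases mod8 h.o1 with h1 | h1 | h1 | h1 <;> rw [h0, h1, hM] at h9 <;>
      first
      | (exfalso; revert h9; norm_num; done)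
      | (rw [c4_8 hM, c4_8 h0, c4_8 h1, c8_8 h0, c8_8 hM] at hp
         simp only [a1, a3, a5, a7, b1, b3, b5, b7, show M % 4 = (M % 8) % 4 by omega,
           show N0 % 4 = (N0 % 8) % 4 by omega, show N1 % 4 = (N1 % 8) % 4 by omega, hM, h0,
           h1] at hp
         norm_num at hp
         linarith)
  · rw [pow_odd' s1 hw, pow_odd' s0 hw] at hp
    rw [if_neg (Nat.not_even_iff_odd.2 hw)]
    have h9 : (N0 % 8) * (N1 % 8) % 8 = (3 * ((N1 % 8) * (M % 8)) + 2) % 8 := by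
      rw [← Nat.mul_mod, h7, ← hu, modh (three_pow_odd hw)]
    rcases mod8 h.oM with hM | hM | hM | hM <;> rcases mod8 h.o0 with h0 | h0 | h0 | h0 <;>
      rcases mod8 h.o1 with h1 | h1 | h1 | h1 <;> rw [h0, h1, hM] at h9 <;>
      first
      | (exfalso; revert h9; norm_num; done)
      | (rw [c4_8 hM, c4_8 h0, c4_8 h1, c8_8 h0, c8_8 hM] at hp
         simp only [a1, a3, a5, a7, b1, b3, b5, b7, show M % 4 = (M % 8) % 4 by omega,
           show N0 % 4 = (N0 % 8) % 4 by omega, show N1 % 4 = (N1 % 8) % 4 by omega, hM, h0,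
           h1] at hp
         norm_num at hp
         rcases c3_sg h.t0 with k0 | k0 <;> rcases c3_sg h.t1 with k1 | k1 <;>
           rcases c3_sg h.tM with k2 | k2 <;> rw [k0, k1, k2] at hp <;> rw [k0, k1, k2] <;>
           revert hp <;> norm_num)

/-- from non-vanishing to data -/
theorem dat_of {d D α β : ℕ} (hd : Squarefree d) (hd2 : ¬ 2 ∣ d) (hd3 : ¬ 3 ∣ d) (hD : D ≠ 0)
    (hv : D.factorization 2 = 1)
    (h1 : ∀ l : ℕ, l.Prime → l ∣ d → l ∣ D → D.factorization l = 1)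
    (h2 : ∀ l : ℕ, l.Prime → l ∣ d → ¬ l ∣ D → jacobiSym (-(D : ℤ)) l = 1)
    (h3 : GG (3 ^ α * 2 ^ β * d) D ≠ 0) : ∃ N0 N1 M : ℕ, d = N0 * N1 ∧
      D = 3 ^ D.factorization 3 * 2 ^ 1 * (N1 * M) ∧
      Dat N0 N1 M α β (D.factorization 3) := by
  have hd0 : d ≠ 0 := hd.ne_zero
  set w := D.factorization 3 with hw
  -- decomposition of `D`
  obtain ⟨E, hE, hE2, hE3⟩ : ∃ E, D = 3 ^ w * 2 ^ 1 * E ∧ ¬ 2 ∣ E ∧ ¬ 3 ∣ E := by
    have a1 : 2 ^ D.factorization 2 * (D / 2 ^ D.factorization 2) = D :=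
      Nat.ordProj_mul_ordCompl_eq_self D 2
    have a2 : ¬ 2 ∣ D / 2 ^ D.factorization 2 := Nat.not_dvd_ordCompl Nat.prime_two hD
    rw [hv] at a1 a2
    set D1 := D / 2 ^ 1 with hD1
    have hD10 : D1 ≠ 0 := by rintro h; rw [h] at a2; exact a2 (dvd_zero _)
    have a3 : 3 ^ D1.factorization 3 * (D1 / 3 ^ D1.factorization 3) = D1 :=
      Nat.ordProj_mul_ordCompl_eq_self D1 3
    have a4 : ¬ 3 ∣ D1 / 3 ^ D1.factorization 3 := Nat.not_dvd_ordCompl Nat.prime_three hD10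
    have a5 : D1.factorization 3 = w := by
      rw [hw, ← a1, Nat.factorization_mul (by positivity) hD10, Finsupp.add_apply,
        Nat.Prime.factorization_pow Nat.prime_two, Finsupp.single_eq_of_ne (by norm_num), zero_add]
    rw [a5] at a3 a4
    refine ⟨D1 / 3 ^ w, ?_, fun h => a2 (a3 ▸ Dvd.dvd.mul_left h _), a4⟩
    calc D = 2 ^ 1 * D1 := a1.symm
      _ = 2 ^ 1 * (3 ^ w * (D1 / 3 ^ w)) := by rw [a3]
      _ = _ := by ring
  have hE0 : E ≠ 0 := by rintro rfl; exact hE2 (dvd_zero _)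
  set N1 := Nat.gcd d D with hN1
  have hN1d : N1 ∣ d := Nat.gcd_dvd_left _ _
  have hN1D : N1 ∣ D := Nat.gcd_dvd_right _ _
  have hN1E : N1 ∣ E := by
    have c1 : Nat.Coprime N1 (3 ^ w * 2 ^ 1) := by
      refine Nat.Coprime.mul_right (Nat.Coprime.pow_right _ ?_) (Nat.Coprime.pow_right _ ?_)
      · exact ((Nat.Prime.coprime_iff_not_dvd Nat.prime_three).2 fun h => hd3 (h.trans hN1d)).symm
      · exact ((Nat.Prime.coprime_iff_not_dvd Nat.prime_two).2 fun h => hd2 (h.trans hN1d)).symm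
    rw [hE] at hN1D
    exact c1.dvd_of_dvd_mul_left hN1D
  obtain ⟨M, hM⟩ := hN1E
  obtain ⟨N0, hN0⟩ := hN1d
  have hdN : d = N0 * N1 := by rw [hN0]; ring
  have hsq : Squarefree (N0 * N1) := hdN ▸ hd
  have c01 : Nat.Coprime N0 N1 := (Nat.squarefree_mul_iff.1 hsq).1
  have hN0d : N0 ∣ d := ⟨N1, hdN⟩
  have hN1d : N1 ∣ d := ⟨N0, hN0⟩
  have hM0 : M ≠ 0 := by rintro rfl; simp at hM; exact hE0 hM
  have hN10 : N1 ≠ 0 := by rintro h; rw [h] at hM; simp at hM; exact hE0 hM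
  have hN00 : N0 ≠ 0 := by rintro rfl; simp at hdN; exact hd0 hdN
  have hDM : D = 3 ^ w * 2 ^ 1 * (N1 * M) := by rw [← hM]; exact hE
  have hMD : M ∣ D := by rw [hDM]; exact Dvd.intro_left (3 ^ w * 2 ^ 1 * N1) (by ring)
  have c1M : Nat.Coprime N1 M := by
    by_contra hcon
    obtain ⟨l, hl, h4, h5⟩ := Nat.Prime.not_coprime_iff_dvd.1 hcon
    have h6 := h1 l hl (h4.trans hN1d) (h4.trans hN1D)
    have h7 : l ^ 2 ∣ D := by
      rw [hDM, sq]
      exact Dvd.dvd.mul_left (mul_dvd_mul h4 h5) _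
    have h8 := (Nat.Prime.pow_dvd_iff_le_factorization hl hD).1 h7
    omega
  have c0M : Nat.Coprime N0 M := by
    by_contra hcon
    obtain ⟨l, hl, h4, h5⟩ := Nat.Prime.not_coprime_iff_dvd.1 hcon
    have h6 : l ∣ N1 := Nat.dvd_gcd (h4.trans hN0d) (h5.trans hMD)
    exact Nat.Prime.not_coprime_iff_dvd.2 ⟨l, hl, h4, h6⟩ c01
  have n2 : ∀ {x : ℕ}, x ∣ d → x % 2 = 1 := fun {x} hx => by
    have : ¬ 2 ∣ x := fun h => hd2 (h.trans hx)
    omega
  have hME : M ∣ E := ⟨N1, by rw [hM]; ring⟩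
  have tl : ∀ {l : ℕ}, l.Prime → l ∣ d → l ≠ 2 ∧ l ≠ 3 := fun {l} _ hx =>
    ⟨fun h => hd2 (h ▸ hx), fun h => hd3 (h ▸ hx)⟩
  have tM : ∀ {l : ℕ}, l.Prime → l ∣ M → l ≠ 2 ∧ l ≠ 3 := fun {l} _ hx =>
    ⟨fun h => hE2 ((h ▸ hx).trans hME), fun h => hE3 ((h ▸ hx).trans hME)⟩
  have hfac : ∀ l ∈ T0 D, fac (3 ^ α * 2 ^ β * d) D l ≠ 0 := fun l hl h0 =>
    h3 (Finset.prod_eq_zero hl h0)
  have h32 : ∀ l : ℕ, l.Prime → l ≠ 2 → l ≠ 3 → ∀ x y : ℕ, ¬ l ∣ 3 ^ x * 2 ^ y := by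
    intro l hl l2 l3 x y h
    rcases (Nat.Prime.dvd_mul hl).1 h with h | h
    · exact l3 ((Nat.prime_dvd_prime_iff_eq hl Nat.prime_three).1 (hl.dvd_of_dvd_pow h))
    · exact l2 ((Nat.prime_dvd_prime_iff_eq hl Nat.prime_two).1 (hl.dvd_of_dvd_pow h))
  refine ⟨N0, N1, M, hdN, hDM, n2 hN0d, n2 hN1d, ?_, fun h => hd3 (h.trans hN0d),
    fun h => hd3 (h.trans hN1d), fun h => hE3 (h.trans hME), c01, c0M, c1M, ?_, ?_, ?_⟩
  · have : ¬ 2 ∣ M := fun h => hE2 (h.trans hME)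
    omega
  · -- the symbol at `M`
    refine jac_one _ hM0 fun l hl hlM => ?_
    obtain ⟨l2, l3⟩ := tM hl hlM
    have hlD : l ∣ D := hlM.trans hMD
    have hlT := mem_T0' hD hl l2 l3 hlD
    have hf := hfac l hlT
    have hld : ¬ l ∣ d := by
      intro h
      have h6 : l ∣ N1 := Nat.dvd_gcd h hlD
      exact Nat.Prime.not_coprime_iff_dvd.2 ⟨l, hl, h6, hlM⟩ c1M
    have hln : ¬ l ∣ 3 ^ α * 2 ^ β * d := by
      intro h
      rcases (Nat.Prime.dvd_mul hl).1 h with h | h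
      · exact h32 l hl l2 l3 _ _ h
      · exact hld h
    rw [fac, if_neg hln] at hf
    have hcop : Nat.Coprime (3 ^ α * 2 ^ β * d) l :=
      ((Nat.Prime.coprime_iff_not_dvd hl).2 hln).symm
    have hS := js_sg' hcop
    have hvl : M.factorization l = D.factorization l := by
      rw [hDM, Nat.factorization_mul (by positivity) (Nat.mul_ne_zero hN10 hM0),
        Nat.factorization_mul (by positivity) (by positivity), Nat.factorization_mul hN10 hM0,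
        Finsupp.add_apply, Finsupp.add_apply, Finsupp.add_apply,
        Nat.Prime.factorization_pow Nat.prime_two, Nat.Prime.factorization_pow Nat.prime_three,
        Finsupp.single_eq_of_ne l3, Finsupp.single_eq_of_ne l2,
        Nat.factorization_eq_zero_of_not_dvd
          (fun h => Nat.Prime.not_coprime_iff_dvd.2 ⟨l, hl, h, hlM⟩ c1M)]
      ring
    rw [hvl, ← hdN]
    rcases hS with h | h
    · rw [h, one_pow]
    · rw [h] at hf ⊢
      exact (geo_neg _ hf).neg_one_pow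
  · -- the symbol at `N1`
    refine jac_one _ hN10 fun l hl hlN => ?_
    obtain ⟨l2, l3⟩ := tl hl (hlN.trans hN1d)
    have hlD : l ∣ D := hlN.trans hN1D
    have hlT := mem_T0' hD hl l2 l3 hlD
    have hf := hfac l hlT
    have hln : l ∣ 3 ^ α * 2 ^ β * d := Dvd.dvd.mul_left (hlN.trans hN1d) _
    have hv1 := h1 l hl (hlN.trans hN1d) hlD
    rw [fac, if_pos hln, hh, hv1, if_neg (by decide), pow_one] at hf
    obtain ⟨K, hK⟩ := hlN
    have hKl : ¬ l ∣ K := by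
      rintro ⟨c, rfl⟩
      have : l * l ∣ d := by rw [hdN, hK]; exact ⟨N0 * c, by ring⟩
      exact hl.one_lt.ne' (Nat.isUnit_iff.1 (hd l this))
    have e1 : 3 ^ α * 2 ^ β * d / l = 3 ^ α * 2 ^ β * N0 * K := by
      rw [hdN, hK]
      have : 3 ^ α * 2 ^ β * (N0 * (l * K)) = l * (3 ^ α * 2 ^ β * N0 * K) := by ring
      rw [this, Nat.mul_div_cancel_left _ hl.pos]
    have e2 : D / l = 3 ^ w * 2 ^ 1 * (K * M) := by
      have : D = l * (3 ^ w * 2 ^ 1 * (K * M)) := by rw [hDM, hK]; ring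
      rw [this, Nat.mul_div_cancel_left _ hl.pos]
    have e3 : (-((3 ^ α * 2 ^ β * N0 * K * (3 ^ w * 2 ^ 1 * (K * M)) : ℕ) : ℤ)) =
        (-(((3 ^ (α + w) * 2 ^ (β + 1) * (N0 * M) : ℕ)) : ℤ)) * ((K : ℤ) ^ 2) := by
      push_cast
      rw [pow_add, pow_add]
      ring
    have hKc : Nat.Coprime K l := ((Nat.Prime.coprime_iff_not_dvd hl).2 hKl).symm
    have e4 : jacobiSym ((K : ℤ) ^ 2) l = 1 := by
      rw [jacobiSym.pow_left, sq]
      exact sq_sg (js_sg hKc)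
    rw [e1, e2, e3, jacobiSym.mul_left, e4, mul_one] at hf
    have hcop : Nat.Coprime (3 ^ (α + w) * 2 ^ (β + 1) * (N0 * M)) l := by
      rw [Nat.coprime_comm, Nat.Prime.coprime_iff_not_dvd hl]
      intro h
      rcases (Nat.Prime.dvd_mul hl).1 h with h | h
      · exact h32 l hl l2 l3 _ _ h
      · rcases (Nat.Prime.dvd_mul hl).1 h with h | h
        · exact Nat.Prime.not_coprime_iff_dvd.2 ⟨l, hl, h, ⟨K, hK⟩⟩ c01
        · exact Nat.Prime.not_coprime_iff_dvd.2 ⟨l, hl, ⟨K, hK⟩, h⟩ c1M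
    rw [sg_of_ne (js_sg' hcop) hf, one_pow]
  · -- the symbol at `N0`
    refine jac_one _ hN00 fun l hl hlN => ?_
    have hlD : ¬ l ∣ D := by
      intro h
      have h6 : l ∣ N1 := Nat.dvd_gcd (hlN.trans hN0d) h
      exact Nat.Prime.not_coprime_iff_dvd.2 ⟨l, hl, hlN, h6⟩ c01
    rw [← hDM, h2 l hl (hlN.trans hN0d) hlD, one_pow]

end Pool.Agent.N42.P24x
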