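import Pool.Agent.N878.P24.U
import Pool.Agent.N877.P24.Defs2

/-!
# P24x: the local densities as characters of the set of primes, even discriminants

Adapted from `N878/P24/{Loc,PF,Ext,Div}.lean`.
-/

set_option autoImplicit false

namespace Pool.Agent.N42.P24x

open Finset
open Pool.Agent.Z700 (hh fac)
open Pool.Agent.N871.P15 (Sg XS XS_dvd XS_sub sum_div)
open Pool.Agent.N878.P24 (ee T0 mem_T0 mem_T0' GG Hy js_prod js_sg prime_not_dvd_prod c4 c8 c3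
  c4_prod c8_prod c3_prod c4_one c4_three c8_eq c3_eq c4_sg c8_sg c3_sg chi ex sg YY not_mem_T0
  prod_T0 I2 I3 XS_2 XS_3 I2_sub recip j3 jneg jtwo sq_sg pow_odd' pow_even' jexp mod8 c4_8 c8_8
  c4v c8v jac_prod_right jac_fact jac_one geo_neg js_sg' sg_of_ne Hz odd_dvd prod_dvd
  fact_nine T0_nine YY_nine)

theorem not_dvd_six {l : ℕ} (hl : l.Prime) (h2 : l ≠ 2) (h3 : l ≠ 3) {a : ℕ} (ha : a ∣ 6) :
    ¬ l ∣ a := by
  intro h
  have h6 : l ∣ 2 * 3 := h.trans ha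
  rcases (Nat.Prime.dvd_mul hl).1 h6 with h | h
  · exact h2 ((Nat.prime_dvd_prime_iff_eq hl Nat.prime_two).1 h)
  · exact h3 ((Nat.prime_dvd_prime_iff_eq hl Nat.prime_three).1 h)

/-- the local factor as a geometric sum of a character -/
theorem fac_char {q m D a l : ℕ} (hy : Hy q m D) (ha : a ∣ 6) (hl : l ∈ T0 D)
    {S : Finset ℕ} (hS : S ⊆ m.primeFactors) :
    fac (a * ∏ p ∈ S, p) D l = ∑ j ∈ range (D.factorization l + 1),
      (jacobiSym (-(a : ℤ)) l * ∏ p ∈ S, ee q m l p) ^ j := by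
  obtain ⟨hlp, h2, h3, hlD⟩ := mem_T0 hl
  have hla : ¬ l ∣ a := not_dvd_six hlp h2 h3 ha
  by_cases hd : l ∈ S
  · have hlm : l ∣ m := Nat.dvd_of_mem_primeFactors (hS hd)
    obtain ⟨h6, h7⟩ := hy l hlp h2 h3 hlD hlm
    have e1 : a * ∏ p ∈ S, p = l * (a * ∏ p ∈ S.erase l, p) := by
      rw [← Finset.mul_prod_erase S (fun p => p) hd]; ring
    have hdiv : l ∣ a * ∏ p ∈ S, p := by rw [e1]; exact Dvd.intro _ rfl
    rw [fac, if_pos hdiv, h6, hh, h6, if_neg (by decide)]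
    have e2 : (a * ∏ p ∈ S, p) / l = a * ∏ p ∈ S.erase l, p := by
      rw [e1, Nat.mul_div_cancel_left _ hlp.pos]
    rw [e2, pow_one, Finset.sum_range_succ, Finset.sum_range_one, pow_zero, pow_one]
    congr 1
    have e4 : (-((a * (∏ p ∈ S.erase l, p) * (D / l) : ℕ) : ℤ)) =
        (-(a : ℤ)) * ((∏ p ∈ S.erase l, p : ℕ) : ℤ) * ((D / l : ℕ) : ℤ) := by
      push_cast; ring
    rw [e4, jacobiSym.mul_left, jacobiSym.mul_left, h7, js_prod,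
      ← Finset.mul_prod_erase S (fun p => ee q m l p) hd]
    have e5 : ee q m l l = jacobiSym ((q * (m / l) : ℕ) : ℤ) l := by rw [ee, if_pos rfl]
    have e6 : ∏ p ∈ S.erase l, ee q m l p = ∏ p ∈ S.erase l, jacobiSym (p : ℤ) l := by
      refine Finset.prod_congr rfl fun p hp => ?_
      rw [ee, if_neg]
      rintro rfl
      exact (Finset.mem_erase.1 hp).1 rfl
    rw [e5, e6]
    ring
  · have hdiv : ¬ l ∣ a * ∏ p ∈ S, p := by
      intro h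
      rcases (Nat.Prime.dvd_mul hlp).1 h with h | h
      · exact hla h
      · exact prime_not_dvd_prod (fun p hp => Nat.prime_of_mem_primeFactors hp) hS hlp hd h
    rw [fac, if_neg hdiv]
    refine Finset.sum_congr rfl fun j _ => ?_
    congr 1
    have e4 : (-((a * ∏ p ∈ S, p : ℕ) : ℤ)) = (-(a : ℤ)) * ((∏ p ∈ S, p : ℕ) : ℤ) := by
      push_cast; ring
    rw [e4, jacobiSym.mul_left, js_prod]
    congr 1
    refine Finset.prod_congr rfl fun p hp => ?_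
    rw [ee, if_neg]
    rintro rfl
    exact hd hp

theorem GG_eq {q m D a : ℕ} (hy : Hy q m D) (ha : a ∣ 6) {S : Finset ℕ}
    (hS : S ∈ m.primeFactors.powerset) : GG (a * ∏ p ∈ S, p) D = YY q m D a S := by
  unfold GG YY
  exact Finset.prod_congr rfl fun l hl => fac_char hy ha hl (Finset.mem_powerset.1 hS)

/-- all characters are signs -/
theorem chi_sg {q m D : ℕ} (hm : Squarefree m) (h2 : ¬ 2 ∣ m) (h3 : ¬ 3 ∣ m)
    (hq : q ∣ 6) {i : ℕ} (hi : i ∈ I3 D) {p : ℕ}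
    (hp : p ∈ m.primeFactors) : Sg (chi q m i p) := by
  have hpp := Nat.prime_of_mem_primeFactors hp
  have hpm := Nat.dvd_of_mem_primeFactors hp
  have hp2 : p % 2 = 1 := by
    rcases Nat.Prime.eq_two_or_odd hpp with h | h
    · exact absurd (h ▸ hpm) h2
    · exact h
  have hp3 : ¬ 3 ∣ p := fun h => h3 (h.trans hpm)
  unfold chi
  split_ifs with h4' h8' h3'
  · exact c4_sg hp2
  · exact c8_sg hp2
  · exact c3_sg hp3
  · simp only [I3, Finset.mem_insert, h4', h8', h3', false_or] at hi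
    obtain ⟨hlp, l2, l3, hlD⟩ := mem_T0 hi
    unfold ee
    split_ifs with h
    · apply js_sg
      have hql : Nat.Coprime q i :=
        ((Nat.Prime.coprime_iff_not_dvd hlp).2 (not_dvd_six hlp l2 l3 hq)).symm
      refine Nat.Coprime.mul_left hql ?_
      rw [← h]
      rw [Nat.coprime_comm, Nat.Prime.coprime_iff_not_dvd hpp]
      intro h6
      have : p * p ∣ m := by
        obtain ⟨c, hc⟩ := h6
        refine ⟨c, ?_⟩
        rw [mul_assoc, ← hc, Nat.mul_div_cancel' hpm]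
      exact hpp.one_lt.ne' (Nat.isUnit_iff.1 (hm p this))
    · exact js_sg ((Nat.coprime_primes hpp hlp).2 h)

theorem sg_sg {a D : ℕ} (ha : a ∣ 6) {s4 s8 s3 : ℤ} (h4 : Sg s4) (h8 : Sg s8) (h3 : Sg s3)
    {i : ℕ} (hi : i ∈ I3 D) : Sg (sg a s4 s8 s3 i) := by
  unfold sg
  split_ifs with h4' h8' h3'
  · exact h4
  · exact h8
  · exact h3
  · simp only [I3, Finset.mem_insert, h4', h8', h3', false_or] at hi
    obtain ⟨hlp, l2, l3, hlD⟩ := mem_T0 hi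
    unfold Sg
    apply jacobiSym.eq_one_or_neg_one
    have hal : Nat.Coprime a i :=
      ((Nat.Prime.coprime_iff_not_dvd hlp).2 (not_dvd_six hlp l2 l3 ha)).symm
    simpa [Int.gcd] using hal

/-- the sum over the divisors in a class modulo `8` with a weight -/
theorem sum_filter_2 {m : ℕ} (hm : Squarefree m) (h2 : ¬ 2 ∣ m) (r : ℕ)
    (hr : r = 1 ∨ r = 3 ∨ r = 5 ∨ r = 7) (F : ℕ → ℤ)
    (G : Finset ℕ → ℤ) (h : ∀ S ∈ m.primeFactors.powerset, F (∏ p ∈ S, p) = G S) :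
    4 * ∑ d ∈ m.divisors.filter (fun d => d % 8 = r), F d =
      ∑ S ∈ m.primeFactors.powerset, (1 + c4 r * c4 (∏ p ∈ S, p)) *
        ((1 + c8 r * c8 (∏ p ∈ S, p)) * G S) := by
  rw [Finset.sum_filter, sum_div hm, Finset.mul_sum]
  refine Finset.sum_congr rfl fun S hS => ?_
  have ho := odd_dvd h2 (prod_dvd hS)
  rw [h S hS]
  obtain ⟨a1, a3, a5, a7⟩ := c4v
  obtain ⟨b1, b3, b5, b7⟩ := c8v
  rcases hr with rfl | rfl | rfl | rfl <;> rcases mod8 ho with h8 | h8 | h8 | h8 <;>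
    rw [c4_8 h8, c8_8 h8, h8] <;> simp only [a1, a3, a5, a7, b1, b3, b5, b7] <;> norm_num <;> ring

/-- the sum over the divisors in a class modulo `24` with a weight -/
theorem sum_filter_3 {m : ℕ} (hm : Squarefree m) (h2 : ¬ 2 ∣ m) (h3 : ¬ 3 ∣ m) (r s : ℕ)
    (hr : r = 1 ∨ r = 3 ∨ r = 5 ∨ r = 7) (hs : s = 1 ∨ s = 2) (F : ℕ → ℤ)
    (G : Finset ℕ → ℤ) (h : ∀ S ∈ m.primeFactors.powerset, F (∏ p ∈ S, p) = G S) :
    8 * ∑ d ∈ m.divisors.filter (fun d => d % 8 = r ∧ d % 3 = s), F d =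
      ∑ S ∈ m.primeFactors.powerset, (1 + c4 r * c4 (∏ p ∈ S, p)) *
        ((1 + c8 r * c8 (∏ p ∈ S, p)) * ((1 + c3 s * c3 (∏ p ∈ S, p)) * G S)) := by
  have key : ∀ S ∈ m.primeFactors.powerset,
      2 * (fun d => if d % 3 = s then F d else 0) (∏ p ∈ S, p) =
        (1 + c3 s * c3 (∏ p ∈ S, p)) * G S := by
    intro S hS
    have h3' : ¬ 3 ∣ ∏ p ∈ S, p := fun h => h3 (h.trans (prod_dvd hS))
    dsimp only
    rw [h S hS, c3_eq, c3_eq]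
    have : (∏ p ∈ S, p) % 3 = 1 ∨ (∏ p ∈ S, p) % 3 = 2 := by omega
    rcases hs with rfl | rfl <;> rcases this with h' | h' <;> rw [h'] <;> norm_num
  have e := sum_filter_2 hm h2 r hr (fun d => 2 * (fun d => if d % 3 = s then F d else 0) d)
    (fun S => (1 + c3 s * c3 (∏ p ∈ S, p)) * G S) key
  rw [← e, ← Finset.mul_sum]
  have e2 : ∑ d ∈ m.divisors.filter (fun d => d % 8 = r ∧ d % 3 = s), F d =
      ∑ d ∈ m.divisors.filter (fun d => d % 8 = r), if d % 3 = s then F d else 0 := by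
    rw [← Finset.sum_filter, Finset.filter_filter]
  rw [e2]
  ring

theorem cr {r : ℕ} (hr : r = 1 ∨ r = 3 ∨ r = 5 ∨ r = 7) : Sg (c4 r) ∧ Sg (c8 r) := by
  rcases hr with rfl | rfl | rfl | rfl <;> exact ⟨c4_sg (by norm_num), c8_sg (by norm_num)⟩

/-- divisibility of the sums over the classes modulo `8` -/
theorem dvd2 {q m D : ℕ} (hq : q ∣ 6) (hm : Squarefree m) (h2 : ¬ 2 ∣ m) (h3 : ¬ 3 ∣ m)
    {a r : ℕ} (hr : r = 1 ∨ r = 3 ∨ r = 5 ∨ r = 7) (F : ℕ → ℤ)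
    (hF : ∀ S ∈ m.primeFactors.powerset, F (∏ p ∈ S, p) = YY q m D a S) :
    (2 : ℤ) ^ m.primeFactors.card ∣ 4 * ∑ d ∈ m.divisors.filter (fun d => d % 8 = r), F d := by
  rw [sum_filter_2 hm h2 r hr F _ hF, ← XS_2 q m D a _ _ 1]
  exact XS_dvd _ _ _ (fun i hi p hp => chi_sg hm h2 h3 hq (I2_sub D hi) hp) _ _ fun p _ => Sg.one

/-- comparison of the sums over the classes modulo `8` -/
theorem cmp2 {q m D : ℕ} (hq : q ∣ 6) (hm : Squarefree m) (h2 : ¬ 2 ∣ m) (h3 : ¬ 3 ∣ m)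
    {a a' r r' : ℕ} (ha : a ∣ 6) (ha' : a' ∣ 6) (hr : r = 1 ∨ r = 3 ∨ r = 5 ∨ r = 7)
    (hr' : r' = 1 ∨ r' = 3 ∨ r' = 5 ∨ r' = 7) (F F' : ℕ → ℤ)
    (hF : ∀ S ∈ m.primeFactors.powerset, F (∏ p ∈ S, p) = YY q m D a S)
    (hF' : ∀ S ∈ m.primeFactors.powerset, F' (∏ p ∈ S, p) = YY q m D a' S) :
    (2 : ℤ) ^ (m.primeFactors.card + 1) ∣
      4 * ∑ d ∈ m.divisors.filter (fun d => d % 8 = r), F d -
      4 * ∑ d ∈ m.divisors.filter (fun d => d % 8 = r'), F' d := by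
  rw [sum_filter_2 hm h2 r hr F _ hF, sum_filter_2 hm h2 r' hr' F' _ hF', ← XS_2 q m D a _ _ 1,
    ← XS_2 q m D a' _ _ 1]
  exact XS_sub _ _ _ _ (fun i hi p hp => chi_sg hm h2 h3 hq (I2_sub D hi) hp)
    (fun i hi => sg_sg ha (cr hr).1 (cr hr).2 Sg.one (I2_sub D hi))
    (fun i hi => sg_sg ha' (cr hr').1 (cr hr').2 Sg.one (I2_sub D hi)) _ _ Sg.one Sg.one _
    fun p _ => Sg.one

/-- comparison of the sums over the classes modulo `24` -/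
theorem cmp3 {q m D : ℕ} (hq : q ∣ 6) (hm : Squarefree m) (h2 : ¬ 2 ∣ m) (h3 : ¬ 3 ∣ m)
    {a a' r r' s s' : ℕ} (ha : a ∣ 6) (ha' : a' ∣ 6) (hr : r = 1 ∨ r = 3 ∨ r = 5 ∨ r = 7)
    (hr' : r' = 1 ∨ r' = 3 ∨ r' = 5 ∨ r' = 7) (hs : s = 1 ∨ s = 2) (hs' : s' = 1 ∨ s' = 2)
    (F F' : ℕ → ℤ)
    (hF : ∀ S ∈ m.primeFactors.powerset, F (∏ p ∈ S, p) = YY q m D a S)
    (hF' : ∀ S ∈ m.primeFactors.powerset, F' (∏ p ∈ S, p) = YY q m D a' S) :
    (2 : ℤ) ^ (m.primeFactors.card + 1) ∣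
      8 * ∑ d ∈ m.divisors.filter (fun d => d % 8 = r ∧ d % 3 = s), F d -
      8 * ∑ d ∈ m.divisors.filter (fun d => d % 8 = r' ∧ d % 3 = s'), F' d := by
  have c3s : ∀ {s : ℕ}, s = 1 ∨ s = 2 → Sg (c3 s) := by
    rintro s (rfl | rfl) <;> exact c3_sg (by norm_num)
  rw [sum_filter_3 hm h2 h3 r s hr hs F _ hF, sum_filter_3 hm h2 h3 r' s' hr' hs' F' _ hF',
    ← XS_3 q m D a, ← XS_3 q m D a']
  exact XS_sub _ _ _ _ (fun i hi p hp => chi_sg hm h2 h3 hq hi hp)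
    (fun i hi => sg_sg ha (cr hr).1 (cr hr).2 (c3s hs) hi)
    (fun i hi => sg_sg ha' (cr hr').1 (cr hr').2 (c3s hs') hi) _ _ Sg.one Sg.one _
    fun p _ => Sg.one

/-! ### the product formula -/

/-- the data extracted from non-vanishing; `2 ∥ D`, `n1 = 3 ^ α 2 ^ β N0 N1` -/
structure Dat (N0 N1 M α β w : ℕ) : Prop where
  o0 : N0 % 2 = 1
  o1 : N1 % 2 = 1
  oM : M % 2 = 1
  t0 : ¬ 3 ∣ N0
  t1 : ¬ 3 ∣ N1
  tM : ¬ 3 ∣ M
  c01 : Nat.Coprime N0 N1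
  c0M : Nat.Coprime N0 M
  c1M : Nat.Coprime N1 M
  e1 : jacobiSym (-(((3 ^ α * 2 ^ β * (N0 * N1) : ℕ)) : ℤ)) M = 1
  e2 : jacobiSym (-(((3 ^ (α + w) * 2 ^ (β + 1) * (N0 * M) : ℕ)) : ℤ)) N1 = 1
  e3 : jacobiSym (-(((3 ^ w * 2 ^ 1 * (N1 * M) : ℕ)) : ℤ)) N0 = 1

/-- the product of the three relations -/
theorem Dat.prod {N0 N1 M α β w : ℕ} (h : Dat N0 N1 M α β w) :
    c4 M * (c3 M * c4 M) ^ α * c8 M ^ β * (c4 N1 * (c3 N1 * c4 N1) ^ (α + w) * c8 N1 ^ (β + 1)) *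
      (c4 N0 * (c3 N0 * c4 N0) ^ w * c8 N0) *
      ((if N0 % 4 = 3 ∧ M % 4 = 3 then -1 else 1) * (if N1 % 4 = 3 ∧ M % 4 = 3 then -1 else 1) *
        (if N0 % 4 = 3 ∧ N1 % 4 = 3 then -1 else 1)) = 1 := by
  have e1 := h.e1
  have e2 := h.e2
  have e3 := h.e3
  rw [jexp h.oM h.tM] at e1
  rw [jexp h.o1 h.t1] at e2
  rw [jexp h.o0 h.t0, pow_one] at e3
  rw [← recip h.o0 h.oM h.c0M, ← recip h.o1 h.oM h.c1M, ← recip h.o0 h.o1 h.c01]
  calc _ = (c4 M * (c3 M * c4 M) ^ α * c8 M ^ β * (jacobiSym (N0 : ℤ) M * jacobiSym (N1 : ℤ) M)) *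
      (c4 N1 * (c3 N1 * c4 N1) ^ (α + w) * c8 N1 ^ (β + 1) *
        (jacobiSym (N0 : ℤ) N1 * jacobiSym (M : ℤ) N1)) *
      (c4 N0 * (c3 N0 * c4 N0) ^ w * c8 N0 * (jacobiSym (N1 : ℤ) N0 * jacobiSym (M : ℤ) N0)) := by
        ring
    _ = 1 := by rw [e1, e2, e3]; norm_num

end Pool.Agent.N42.P24x
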