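import Pool.Agent.N877.P24.Defs2
import Pool.Agent.N877.P24.Tor
import Pool.Agent.N878.P24.Par

/-!
# P24x: the parity of the Gross sums for `n ≡ 3 mod 24`
-/

set_option autoImplicit false

namespace Pool.Agent.N42.P24x

open Finset Matrix
open Pool.Agent.Z700 (V3 vec cp hh fac chi12)
open Pool.Agent.N877.P24

/-- **PARA3** -/
theorem t_PARA3 : S_PARA3 := by
  intro n hn hn3
  obtain ⟨hs, h24⟩ := hn
  obtain ⟨m, rfl⟩ : 3 ∣ n := by omega
  have h3 : ¬ 3 ∣ m := by
    rintro ⟨k, rfl⟩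
    have := Nat.isUnit_iff.1 (hs 3 ⟨k, by ring⟩)
    omega
  have hm : Cls3 m := ⟨hs.squarefree_of_dvd ⟨3, by ring⟩, by omega, h3⟩
  have hc3 : (3 * m).primeFactors.card = m.primeFactors.card + 1 := by
    rw [Pool.Agent.N878.P24.card_mul hs, Nat.Prime.primeFactors Nat.prime_three,
      Finset.card_singleton, add_comm]
  obtain ⟨g, z, h1, h2⟩ := Pool.Agent.N878.P24.ind33 t_R m hm (by omega)
  obtain ⟨g', h1', h2'⟩ := t_R (3 * m) hs (by omega) hn3
  have hgg : g = g' := by
    rw [h1, hc3, pow_succ] at h1'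
    have h0 : (24 * 2 ^ m.primeFactors.card : ℤ) ≠ 0 := by positivity
    refine mul_left_cancel₀ h0 ?_
    rw [h1']
    ring
  subst hgg
  refine ⟨g + 2 * z, ?_, ?_⟩
  · rw [h2, hc3, pow_succ]
    ring
  · rw [← h2', Int.odd_add]
    constructor
    · intro h
      exact h.2 (even_two_mul z)
    · intro h
      exact ⟨fun _ => even_two_mul z, fun _ => h⟩

end Pool.Agent.N42.P24x

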