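import Pool.Agent.N42.P24x.Cnt

/-!
# The parity of the number of vectors of norm `m ≡ 2 mod 4`, `S_RE`

Adapted from `N916/RE/{Ge,Am,Bj,Fin}.lean`.
-/

set_option autoImplicit false

namespace Pool.Agent.N42.P24x

open Finset Pool.Agent.N877.TF
open Pool.Agent.N877.P24 (S1 B1 d1 nm1 pos1 rr)
open Pool.Agent.N855.P15 (sg sg_add sg_inj sg_sum sy sg_sy jac_prod PP dv dvd_dv add_self2)
open Pool.Agent.N916.RE (wv Nn pf4 card_pf4 sq_fac ev dv_ev dv_zero ev_ne Lm_ev Qe_iff sqdvd lin2 WW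
  Me Lm Lm_apply Cn key_sym Cn_iff dv_of dv_sq dv_supp dv_inj)

/-- the genus condition -/
def Gm (m : ℕ) (g : ℤ × ℤ × ℤ) : Prop :=
  ∀ p ∈ m.primeFactors.erase 2, jacobiSym (-(wv p g)) p = 1

instance (m : ℕ) (g : ℤ × ℤ × ℤ) : Decidable (Gm m g) := by
  unfold Gm; infer_instance

/-- facts on the value at the point `(e, f)` -/
theorem val_facts {m : ℕ} (hsq : Squarefree m) (hm : m % 4 = 2) {a b c : ℤ}
    (hn : a * c - b ^ 2 = m) {e f : ℕ} (hef : e * f = m) (he : e = Int.gcd a m) :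
    (∀ p ∈ m.primeFactors.erase 2, ¬ (p : ℤ) ∣ a * (e : ℤ) ^ 2 + 2 * b * ((e : ℤ) * f) +
        c * (f : ℤ) ^ 2 ∧ jacobiSym (-(a * (e : ℤ) ^ 2 + 2 * b * ((e : ℤ) * f) +
        c * (f : ℤ) ^ 2)) p = jacobiSym (-(wv p (a, 2 * b, c))) p) ∧
    (Odd (a * (e : ℤ) ^ 2 + 2 * b * ((e : ℤ) * f) + c * (f : ℤ) ^ 2)) := by
  have hcop : Nat.Coprime e f := Nat.coprime_of_squarefree_mul (by rw [hef]; exact hsq)
  have hdv : ∀ l : ℕ, l.Prime → l ∣ m → ((l : ℤ) ∣ a → (l : ℤ) ∣ (e : ℤ) ∧ ¬ (l : ℤ) ∣ (f : ℤ)) ∧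
      (¬ (l : ℤ) ∣ a → ¬ (l : ℤ) ∣ (e : ℤ) ∧ (l : ℤ) ∣ (f : ℤ)) := by
    intro l hl hlN
    constructor
    · intro h
      have h1 : l ∣ e := by
        rw [he]
        exact Int.dvd_gcd h (by exact_mod_cast hlN)
      refine ⟨by exact_mod_cast h1, fun h2 => ?_⟩
      have h3 : l ∣ f := by exact_mod_cast h2
      exact hl.one_lt.ne' (Nat.eq_one_of_dvd_coprimes hcop h1 h3)
    · intro h
      have h1 : ¬ l ∣ e := by
        intro h2
        apply h
        have h5 : ((Int.gcd a (m : ℤ) : ℕ) : ℤ) ∣ a := Int.gcd_dvd_left _ _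
        rw [← he] at h5
        exact dvd_trans (by exact_mod_cast h2) h5
      refine ⟨fun h2 => h1 (by exact_mod_cast h2), ?_⟩
      rw [← hef, Nat.Prime.dvd_mul hl] at hlN
      exact_mod_cast hlN.resolve_left h1
  have hac : (2 : ℤ) ∣ a → ¬ (2 : ℤ) ∣ c := by
    rintro ⟨a', rfl⟩ ⟨c', rfl⟩
    rcases Int.even_or_odd b with ⟨k, hk⟩ | ⟨k, hk⟩
    · have : (m : ℤ) = 4 * (a' * c' - k ^ 2) := by rw [← hn, hk]; ring
      omega
    · have : (m : ℤ) = 4 * (a' * c' - k ^ 2 - k) - 1 := by rw [← hn, hk]; ring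
      omega
  refine ⟨?_, ?_⟩
  · intro p hp
    obtain ⟨hp2, hp⟩ := Finset.mem_erase.1 hp
    have hpp := Nat.prime_of_mem_primeFactors hp
    have hpm := Nat.dvd_of_mem_primeFactors hp
    have hpZ : Prime (p : ℤ) := Nat.prime_iff_prime_int.1 hpp
    have hpmZ : (p : ℤ) ∣ m := by exact_mod_cast hpm
    have hsqj : ∀ x : ℤ, ¬ (p : ℤ) ∣ x → jacobiSym (x ^ 2) p = 1 := by
      intro x hx
      apply jacobiSym.sq_one'
      have : IsCoprime x (p : ℤ) := by
        rw [isCoprime_comm]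
        exact (Prime.coprime_iff_not_dvd hpZ).2 hx
      exact Int.isCoprime_iff_gcd_eq_one.1 this
    obtain ⟨hd1, hd2⟩ := hdv p hpp hpm
    by_cases h : (p : ℤ) ∣ a
    · obtain ⟨h1, h2⟩ := hd1 h
      have hpb : (p : ℤ) ∣ b := by
        have : (p : ℤ) ∣ b ^ 2 := by
          have e1 : b ^ 2 = a * c - m := by rw [← hn]; ring
          rw [e1]
          exact dvd_sub (Dvd.dvd.mul_right h _) hpmZ
        exact hpZ.dvd_of_dvd_pow this
      have hpc : ¬ (p : ℤ) ∣ c := by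
        rintro ⟨c', hc'⟩
        obtain ⟨a', ha'⟩ := h
        obtain ⟨b', hb'⟩ := hpb
        have h3 : ((p * p : ℕ) : ℤ) ∣ (m : ℤ) := ⟨a' * c' - b' ^ 2, by
          rw [← hn, ha', hb', hc']; push_cast; ring⟩
        have h4 : p * p ∣ m := by exact_mod_cast h3
        exact hpp.one_lt.ne' (Nat.isUnit_iff.1 (hsq p h4))
      have hmod : (p : ℤ) ∣ a * (e : ℤ) ^ 2 + 2 * b * ((e : ℤ) * f) := by
        refine dvd_add (Dvd.dvd.mul_right h _) (Dvd.dvd.mul_right (Dvd.dvd.mul_left hpb _) _)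
      constructor
      · intro h3
        have h4 := (dvd_add_right hmod).1 h3
        rcases hpZ.dvd_or_dvd h4 with h5 | h5
        · exact hpc h5
        · exact h2 (hpZ.dvd_of_dvd_pow h5)
      · have hw : wv p (a, 2 * b, c) = c := by simp [wv, h]
        rw [hw]
        have e2 : jacobiSym (-c) p = jacobiSym (-c * (f : ℤ) ^ 2) p := by
          rw [jacobiSym.mul_left, hsqj _ h2, mul_one]
        rw [e2]
        apply jacobiSym.mod_left'
        refine Int.ModEq.symm (Int.modEq_iff_dvd.2 ?_)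
        have : -(a * (e : ℤ) ^ 2 + 2 * b * ((e : ℤ) * f) + c * (f : ℤ) ^ 2) -
            -c * (f : ℤ) ^ 2 = (a * (e : ℤ) ^ 2 + 2 * b * ((e : ℤ) * f)) * (-1) := by ring
        rw [this]
        exact Dvd.dvd.mul_right hmod _
    · obtain ⟨h1, h2⟩ := hd2 h
      have hmod : (p : ℤ) ∣ 2 * b * ((e : ℤ) * f) + c * (f : ℤ) ^ 2 := by
        refine dvd_add (Dvd.dvd.mul_left (Dvd.dvd.mul_left h2 _) _)
          (Dvd.dvd.mul_left (Dvd.dvd.pow h2 two_ne_zero) _)
      constructor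
      · intro h3
        rw [add_assoc] at h3
        have h4 := (dvd_add_left hmod).1 h3
        rcases hpZ.dvd_or_dvd h4 with h5 | h5
        · exact h h5
        · exact h1 (hpZ.dvd_of_dvd_pow h5)
      · have hw : wv p (a, 2 * b, c) = a := by simp [wv, h]
        rw [hw]
        have e2 : jacobiSym (-a) p = jacobiSym (-a * (e : ℤ) ^ 2) p := by
          rw [jacobiSym.mul_left, hsqj _ h1, mul_one]
        rw [e2]
        apply jacobiSym.mod_left'
        refine Int.ModEq.symm (Int.modEq_iff_dvd.2 ?_)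
        have : -(a * (e : ℤ) ^ 2 + 2 * b * ((e : ℤ) * f) + c * (f : ℤ) ^ 2) -
            -a * (e : ℤ) ^ 2 = (2 * b * ((e : ℤ) * f) + c * (f : ℤ) ^ 2) * (-1) := by ring
        rw [this]
        exact Dvd.dvd.mul_right hmod _
  · obtain ⟨hd1, hd2⟩ := hdv 2 Nat.prime_two (by omega)
    by_cases h : (2 : ℤ) ∣ a
    · obtain ⟨h1, h2⟩ := hd1 h
      have h3 : Even (a * (e : ℤ) ^ 2 + 2 * b * ((e : ℤ) * f)) := by
        rw [even_iff_two_dvd]
        exact dvd_add (Dvd.dvd.mul_right h _) (Dvd.dvd.mul_right (Dvd.intro _ rfl) _)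
      refine h3.add_odd ?_
      have h4 : Odd c := by
        rw [← Int.not_even_iff_odd, even_iff_two_dvd]; exact hac h
      have h5 : Odd (f : ℤ) := by
        rw [← Int.not_even_iff_odd, even_iff_two_dvd]; exact_mod_cast h2
      exact h4.mul h5.pow
    · obtain ⟨h1, h2⟩ := hd2 h
      rw [add_assoc]
      have h3 : Even (2 * b * ((e : ℤ) * f) + c * (f : ℤ) ^ 2) := by
        rw [even_iff_two_dvd]
        refine dvd_add (Dvd.dvd.mul_right (Dvd.intro _ rfl) _) (Dvd.dvd.mul_left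
          (Dvd.dvd.pow (by exact_mod_cast h2) two_ne_zero) _)
      refine Odd.add_even ?_ h3
      have h4 : Odd a := by
        rw [← Int.not_even_iff_odd, even_iff_two_dvd]; exact h
      have h5 : Odd (e : ℤ) := by
        rw [← Int.not_even_iff_odd, even_iff_two_dvd]; exact_mod_cast h1
      exact h4.mul h5.pow

theorem card_PP_red {m : ℕ} (hsq : Squarefree m) (hm : m % 4 = 2)
    {g : ℤ × ℤ × ℤ} (hg : g ∈ Rd (4 * m)) :
    Nat.card (S2.PP (2 * g.1) g.2.1 (2 * g.2.2)) =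
      if Gm m g then 24 * 2 ^ (m.primeFactors.erase 2).card else 0 := by
  obtain ⟨a, b0, c⟩ := g
  have hR := mem_Rd.1 hg
  simp only at hR ⊢
  obtain ⟨hn0, ha, -⟩ := hR
  obtain ⟨b, rfl⟩ : ∃ b, b0 = 2 * b := by
    rcases Int.even_or_odd b0 with ⟨k, hk⟩ | ⟨k, hk⟩
    · exact ⟨k, by rw [hk]; ring⟩
    · exfalso
      rw [hk] at hn0
      push_cast at hn0
      have : 4 * (a * c - k ^ 2 - k - m) = 1 := by linear_combination hn0
      omega
  have hn : a * c - b ^ 2 = m := by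
    push_cast at hn0
    linarith
  have hm0 : 0 < m := Nat.pos_of_ne_zero hsq.ne_zero
  have hmZ : (0 : ℤ) < m := by exact_mod_cast hm0
  obtain ⟨h1, h2⟩ := gcd_facts hsq a
  obtain ⟨e, he⟩ : ∃ e, e = Int.gcd a m := ⟨_, rfl⟩
  obtain ⟨f, hf⟩ : ∃ f, f = m / e := ⟨_, rfl⟩
  rw [← he, ← hf] at h1 h2
  obtain ⟨v1, v2⟩ := val_facts hsq hm hn h1 he
  -- the base change
  obtain ⟨s, q', hsq'⟩ : IsCoprime (e : ℤ) (f : ℤ) := Nat.isCoprime_iff_coprime.2 h2
  have hdet : (e : ℤ) * s - (-q') * f = 1 := by linear_combination hsq'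
  rw [card_PP_change S2 hdet]
  obtain ⟨A, hA⟩ : ∃ A, A = a * (e : ℤ) ^ 2 + 2 * b * ((e : ℤ) * f) + c * (f : ℤ) ^ 2 := ⟨_, rfl⟩
  obtain ⟨C, hC⟩ : ∃ C, C = a * (-q') ^ 2 + 2 * b * ((-q') * s) + c * s ^ 2 := ⟨_, rfl⟩
  obtain ⟨B, hB⟩ : ∃ B, B = a * ((e : ℤ) * (-q')) + b * ((e : ℤ) * s + (-q') * f) +
    c * ((f : ℤ) * s) := ⟨_, rfl⟩
  have hB2 : 2 * a * ((e : ℤ) * (-q')) + 2 * b * ((e : ℤ) * s + (-q') * f) +
      2 * c * ((f : ℤ) * s) = 2 * B := by rw [hB]; ring
  rw [hB2, ← hA, ← hC]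
  rw [← hA] at v1 v2
  have hnew : A * C - B ^ 2 = m := by
    have : A * C - B ^ 2 = (a * c - b ^ 2) * ((e : ℤ) * s - (-q') * f) ^ 2 := by
      rw [hA, hB, hC]; ring
    rw [this, hdet, hn]; ring
  have hpos : 0 < A := by
    rw [hA]
    apply pos_val ha (by
      have : 4 * a * c - (2 * b) ^ 2 = 4 * m := by rw [← hn]; ring
      rw [this]; positivity)
    left
    intro h0
    rw [show e = 0 by exact_mod_cast h0, zero_mul] at h1
    omega
  have hcopA : IsCoprime A (m : ℤ) := by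
    rw [Int.isCoprime_iff_gcd_eq_one]
    by_contra hne
    obtain ⟨l, hl, hld⟩ := Nat.exists_prime_and_dvd hne
    have hldZ : (l : ℤ) ∣ ((Int.gcd A m : ℕ) : ℤ) := by exact_mod_cast hld
    have h3 : (l : ℤ) ∣ A := hldZ.trans (Int.gcd_dvd_left _ _)
    have h4 : (l : ℤ) ∣ (m : ℤ) := hldZ.trans (Int.gcd_dvd_right _ _)
    have h4' : l ∣ m := by exact_mod_cast h4
    by_cases hl2 : l = 2
    · subst hl2
      rw [← Int.not_even_iff_odd, even_iff_two_dvd] at v2
      exact v2 (by exact_mod_cast h3)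
    · exact (v1 l (Finset.mem_erase.2 ⟨hl2, Nat.mem_primeFactors.2 ⟨hl, h4', hm0.ne'⟩⟩)).1 h3
  rw [card_PP12, card_PP1 hnew hpos hsq hcopA]
  have hI := card_Iu2 hsq hm hpos v2
  have hprod : ∏ p ∈ m.primeFactors.erase 2, (1 + jacobiSym (-A) p) =
      ∏ p ∈ m.primeFactors.erase 2, (1 + jacobiSym (-(wv p (a, 2 * b, c))) p) :=
    Finset.prod_congr rfl fun p hp => by rw [(v1 p hp).2]
  rw [hprod] at hI
  by_cases hG : Gm m (a, 2 * b, c)
  · rw [if_pos hG]
    rw [Finset.prod_congr rfl (fun p hp => by rw [hG p hp]), Finset.prod_const] at hI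
    have : (Iu m A).card = 2 ^ (m.primeFactors.erase 2).card := by
      have : ((Iu m A).card : ℤ) = ((2 ^ (m.primeFactors.erase 2).card : ℕ) : ℤ) := by
        rw [hI]; push_cast; norm_num
      exact_mod_cast this
    rw [this]
  · rw [if_neg hG]
    have : ((Iu m A).card : ℤ) = 0 := by
      rw [hI]
      unfold Gm at hG
      push Not at hG
      obtain ⟨p, hp, hne⟩ := hG
      rw [Finset.prod_eq_zero hp]
      obtain ⟨w1, w2⟩ := v1 p hp
      rw [← w2] at hne ⊢
      have hpp := Nat.prime_of_mem_primeFactors (Finset.mem_of_mem_erase hp)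
      haveI : NeZero p := ⟨hpp.ne_zero⟩
      have hpZ : Prime (p : ℤ) := Nat.prime_iff_prime_int.1 hpp
      have h7 : jacobiSym (-A) p ≠ 0 := by
        rw [Ne, jacobiSym.eq_zero_iff_not_coprime]
        intro h
        apply h
        rw [← Int.isCoprime_iff_gcd_eq_one]
        rw [isCoprime_comm]
        refine (Prime.coprime_iff_not_dvd hpZ).2 ?_
        rw [dvd_neg]
        exact w1
      rcases jacobiSym.trichotomy (-A) p with h | h | h
      · exact absurd h h7
      · exact absurd h hne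
      · rw [h]; norm_num
    have h8 : (Iu m A).card = 0 := by exact_mod_cast this
    rw [h8, mul_zero]

/-- the number of vectors -/
theorem card_vec {m : ℕ} (hsq : Squarefree m) (hm : m % 4 = 2) :
    rr m = 6 * 2 ^ m.primeFactors.card * ((Rd (4 * m)).filter fun g => Gm m g).card := by
  have hm0 : m ≠ 0 := hsq.ne_zero
  have hm1 : m ≠ 1 := by omega
  have h := Pool.Agent.N916.RE.sum_PP S2 pos2 (n := 4 * m) (by omega) (fun a ha => by
      have h1 : (m : ℤ) = a ^ 2 := by push_cast at ha; linarith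
      have h2 : m = a.natAbs * a.natAbs := by
        have : (m : ℤ) = ((a.natAbs * a.natAbs : ℕ) : ℤ) := by
          rw [h1, Int.natAbs_mul_self]; ring
        exact_mod_cast this
      have h3 := Nat.isUnit_iff.1 (hsq a.natAbs (Dvd.intro_left 1 (by rw [one_mul]; exact h2.symm)))
      rw [h3] at h2
      exact hm1 h2) (fun a ha => by
      have h1 : (4 : ℤ) * m = 3 * a ^ 2 := by push_cast at ha; linarith
      obtain ⟨k, hk⟩ : (2 : ℤ) ∣ a := by
        rcases Int.even_or_odd a with ⟨k, hk⟩ | ⟨k, hk⟩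
        · exact ⟨k, by rw [hk]; ring⟩
        · exfalso
          rw [hk] at h1
          have : (3 : ℤ) * (2 * k + 1) ^ 2 = 4 * (3 * (k ^ 2 + k)) + 3 := by ring
          omega
      have h2 : (m : ℤ) = 3 * k ^ 2 := by rw [hk] at h1; linarith
      rcases Int.even_or_odd k with ⟨j, hj⟩ | ⟨j, hj⟩
      · have : (m : ℤ) = 4 * (3 * j ^ 2) := by rw [h2, hj]; ring
        omega
      · have : (m : ℤ) = 4 * (3 * (j ^ 2 + j)) + 3 := by rw [h2, hj]; ring
        omega) (VV := Pool.Agent.Z700.vec (m : ℤ)) (mem_vec2 m)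
      (fun v hv => by
        rw [nm2] at hv
        push_cast at hv
        exact prim_of_sqfree S1 hsq (mul_left_cancel₀ (four_ne_zero (α := ℤ)) hv))
      (fun _ _ u _ => even2 u)
  have h2m : 2 ∈ m.primeFactors := Nat.mem_primeFactors.2 ⟨Nat.prime_two, by omega, hm0⟩
  have hc : m.primeFactors.card = (m.primeFactors.erase 2).card + 1 := by
    rw [Finset.card_erase_of_mem h2m]
    have := Finset.card_pos.2 ⟨2, h2m⟩
    omega
  rw [Finset.sum_congr rfl (fun g hg => card_PP_red hsq hm hg), ← Finset.sum_filter,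
    Finset.sum_const, smul_eq_mul] at h
  have h' : (2 : ℤ) * rr m = 2 * (6 * 2 ^ m.primeFactors.card *
      ((Rd (4 * m)).filter fun g => Gm m g).card) := by
    unfold rr
    have h2 : ((2 * (Pool.Agent.Z700.vec (m : ℤ)).card : ℕ) : ℤ) =
      ((((Rd (4 * m)).filter fun g => Gm m g).card *
        (24 * 2 ^ (m.primeFactors.erase 2).card) : ℕ) : ℤ) := by
      rw [h]
    push_cast at h2 ⊢
    rw [h2, hc, pow_succ]; ring
  exact mul_left_cancel₀ two_ne_zero h'

/-- parity: only the ambiguous forms count -/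
theorem card_parity (m : ℕ) :
    Odd ((Rd (4 * m)).filter fun g => Gm m g).card ↔
      Odd ((Rd (4 * m)).filter fun g => Gm m g ∧ (g.2.1 = 0 ∨ g.2.1 = g.1 ∨ g.1 = g.2.2)).card := by
  classical
  have hsplit : ((Rd (4 * m)).filter fun g => Gm m g).card =
      ((Rd (4 * m)).filter fun g => Gm m g ∧ (g.2.1 = 0 ∨ g.2.1 = g.1 ∨ g.1 = g.2.2)).card +
      ((Rd (4 * m)).filter fun g => Gm m g ∧ ¬ (g.2.1 = 0 ∨ g.2.1 = g.1 ∨ g.1 = g.2.2)).card := by
    rw [← Finset.card_filter_add_card_filter_not (s := (Rd (4 * m)).filter fun g => Gm m g)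
      (fun g => g.2.1 = 0 ∨ g.2.1 = g.1 ∨ g.1 = g.2.2), Finset.filter_filter, Finset.filter_filter]
  have heven : Even ((Rd (4 * m)).filter fun g => Gm m g ∧
      ¬ (g.2.1 = 0 ∨ g.2.1 = g.1 ∨ g.1 = g.2.2)).card := by
    have h0 : ∑ _g ∈ (Rd (4 * m)).filter (fun g => Gm m g ∧
        ¬ (g.2.1 = 0 ∨ g.2.1 = g.1 ∨ g.1 = g.2.2)), (1 : ZMod 2) = 0 := by
      refine Finset.sum_involution (fun g _ => (g.1, -g.2.1, g.2.2)) ?_ ?_ ?_ ?_
      · intro g _; decide
      · rintro ⟨a, b, c⟩ hg _ h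
        simp only [Prod.mk.injEq, true_and, and_true] at h
        have := (Finset.mem_filter.1 hg).2.2
        simp only at this
        exact this (Or.inl (by omega))
      · rintro ⟨a, b, c⟩ hg
        obtain ⟨h1, h2, h3⟩ := Finset.mem_filter.1 hg
        rw [Finset.mem_filter]
        have hR := mem_Rd.1 h1
        simp only at hR h2 h3 ⊢
        push Not at h3
        obtain ⟨r1, r2, r3, r4, r5, r6⟩ := hR
        refine ⟨mem_Rd.2 ⟨by rw [← r1]; ring, r2, by
          simp only; have := lt_of_le_of_ne r4 h3.2.1; linarith, by simp only; linarith, r5,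
          fun h => absurd h h3.2.2⟩, h2, ?_⟩
        · rintro (h | h | h)
          · exact h3.1 (by linarith)
          · linarith
          · exact h3.2.2 h
      · rintro ⟨a, b, c⟩ _
        simp
    rw [Finset.sum_const, nsmul_eq_mul, mul_one] at h0
    exact (ZMod.natCast_eq_zero_iff_even).1 h0
  rw [hsplit, Nat.odd_add]
  exact ⟨fun h => h.2 heven, fun h => ⟨fun _ => heven, fun _ => h⟩⟩

/-- the condition on a factorization -/
def Cc (r s : ℕ) : Prop := (∀ p ∈ s.primeFactors, p ≠ 2 → jacobiSym (-(r : ℤ)) p = 1) ∧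
  (∀ p ∈ r.primeFactors, p ≠ 2 → jacobiSym (-(s : ℤ)) p = 1)

instance (r s : ℕ) : Decidable (Cc r s) := by unfold Cc; infer_instance

theorem Cc_symm {r s : ℕ} : Cc r s ↔ Cc s r := by
  unfold Cc; exact and_comm

/-- the factorizations -/
def AE (m : ℕ) : Finset ℕ := m.divisors.filter fun r => r * r < m ∧ Cc r (m / r)

theorem Gm_diag {m r s : ℕ} (hsq : Squarefree m) (h : r * s = m) :
    Gm m ((r : ℤ), 0, (s : ℤ)) ↔ Cc r s := by
  obtain ⟨-, -, hcop, hr0, hs0⟩ := sq_fac hsq h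
  have hn : ∀ p : ℕ, p.Prime → p ∣ r → ¬ p ∣ s := fun p hp h h' =>
    hp.one_lt.ne' (Nat.eq_one_of_dvd_coprimes hcop h h')
  have hm0 := hsq.ne_zero
  have h1 : ∀ p : ℕ, p ∣ r → wv p ((r : ℤ), 0, (s : ℤ)) = s := by
    intro p hpr
    unfold wv; simp only; rw [if_pos (Int.natCast_dvd_natCast.2 hpr)]
  have h2 : ∀ p : ℕ, ¬ p ∣ r → wv p ((r : ℤ), 0, (s : ℤ)) = r := by
    intro p hpr
    unfold wv; simp only; rw [if_neg (fun h' => hpr (Int.natCast_dvd_natCast.1 h'))]
  constructor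
  · intro H
    constructor
    · intro p hp hp2
      have hpp := Nat.prime_of_mem_primeFactors hp
      have hps := Nat.dvd_of_mem_primeFactors hp
      rw [← h2 p (fun h' => hn p hpp h' hps)]
      exact H p (Finset.mem_erase.2 ⟨hp2, Nat.mem_primeFactors.2 ⟨hpp, by
        rw [← h]; exact Dvd.dvd.mul_left hps _, hm0⟩⟩)
    · intro p hp hp2
      have hpp := Nat.prime_of_mem_primeFactors hp
      have hps := Nat.dvd_of_mem_primeFactors hp
      rw [← h1 p hps]
      exact H p (Finset.mem_erase.2 ⟨hp2, Nat.mem_primeFactors.2 ⟨hpp, by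
        rw [← h]; exact Dvd.dvd.mul_right hps _, hm0⟩⟩)
  · rintro ⟨k1, k2⟩ p hp
    obtain ⟨hp2, hp⟩ := Finset.mem_erase.1 hp
    have hpp := Nat.prime_of_mem_primeFactors hp
    have hpm := Nat.dvd_of_mem_primeFactors hp
    rw [← h, Nat.Prime.dvd_mul hpp] at hpm
    rcases hpm with h3 | h3
    · rw [h1 p h3]
      exact k2 p (Nat.mem_primeFactors.2 ⟨hpp, h3, hr0.ne'⟩) hp2
    · have h4 : ¬ p ∣ r := fun h' => hn p hpp h' h3
      rw [h2 p h4]
      exact k1 p (Nat.mem_primeFactors.2 ⟨hpp, h3, hs0.ne'⟩) hp2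

/-- ambiguous reduced forms are factorizations -/
theorem card_amb {m : ℕ} (hsq : Squarefree m) (hm : m % 4 = 2) :
    ((Rd (4 * m)).filter fun g => Gm m g ∧ (g.2.1 = 0 ∨ g.2.1 = g.1 ∨ g.1 = g.2.2)).card =
      (AE m).card := by
  symm
  have hm0 : m ≠ 0 := hsq.ne_zero
  have hm1 : m ≠ 1 := by omega
  have hdat : ∀ r : ℕ, r ∈ AE m → ∃ s, m / r = s ∧ r * s = m ∧ 0 < r ∧ r < s ∧ Cc r s := by
    intro r ht
    rw [AE, mem_filter, Nat.mem_divisors] at ht
    obtain ⟨⟨h2, -⟩, h4, h6⟩ := ht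
    have hrs : r * (m / r) = m := Nat.mul_div_cancel' h2
    obtain ⟨-, -, -, hr0, hs0⟩ := sq_fac hsq hrs
    refine ⟨m / r, rfl, hrs, hr0, ?_, h6⟩
    have : r * r < r * (m / r) := by rw [hrs]; exact h4
    exact Nat.lt_of_mul_lt_mul_left this
  refine Finset.card_bij (fun r _ => ((r : ℤ), 0, ((m / r : ℕ) : ℤ))) ?_ ?_ ?_
  · intro r hq
    obtain ⟨s, hs, hrs, hr0, hlt, hC⟩ := hdat r hq
    have hrsZ : (r : ℤ) * s = m := by exact_mod_cast hrs
    simp only [hs, mem_filter, mem_Rd]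
    refine ⟨⟨by push_cast; rw [← hrsZ]; ring, by omega, by omega, by omega, by omega,
      fun _ => le_refl _⟩, (Gm_diag hsq hrs).2 hC, by simp⟩
  · intro r hr r' hr' h
    simp only [Prod.mk.injEq] at h
    exact_mod_cast h.1
  · rintro ⟨a, b, c⟩ hg
    obtain ⟨h1, hG, h3⟩ := mem_filter.1 hg
    obtain ⟨r1, r2, r3, r4, r5, r6⟩ := mem_Rd.1 h1
    simp only at r1 r2 r3 r4 r5 r6 h3
    push_cast at r1
    -- `b` is even
    obtain ⟨b', hb'⟩ : ∃ b', b = 2 * b' := by
      rcases Int.even_or_odd b with ⟨k, hk⟩ | ⟨k, hk⟩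
      · exact ⟨k, by rw [hk]; ring⟩
      · exfalso
        rw [hk] at r1
        have : 4 * (a * c - k ^ 2 - k - m) = 1 := by linear_combination r1
        omega
    have hm' : a * c - b' ^ 2 = m := by rw [hb'] at r1; linarith
    have hodd4 : ∀ r s : ℤ, r * s = m → (r + s) % 2 = 0 → False := by
      intro r s hrs hpa
      have h7 : (r % 4) * (s % 4) % 4 = 2 := by rw [← Int.mul_emod, hrs]; omega
      have h8 : (r % 4 + s % 4) % 2 = 0 := by omega
      have h9 : r % 4 < 4 := Int.emod_lt_of_pos _ (by norm_num)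
      have h10 : s % 4 < 4 := Int.emod_lt_of_pos _ (by norm_num)
      have h11 : 0 ≤ r % 4 := Int.emod_nonneg _ (by norm_num)
      have h12 : 0 ≤ s % 4 := Int.emod_nonneg _ (by norm_num)
      generalize r % 4 = x at *
      generalize s % 4 = y at *
      interval_cases x <;> interval_cases y <;> simp_all
    have hb : b = 0 := by
      rcases h3 with h | h | h
      · exact h
      · exfalso
        refine hodd4 b' (2 * c - b') ?_ (by omega)
        rw [← hm', ← h, hb']; ring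
      · exfalso
        subst h
        refine hodd4 (a - b') (a + b') ?_ (by omega)
        rw [← hm']; ring
    subst hb
    obtain ⟨r, hr⟩ : ∃ r : ℕ, (r : ℤ) = a := ⟨a.toNat, Int.toNat_of_nonneg (by omega)⟩
    obtain ⟨s, hs⟩ : ∃ s : ℕ, (s : ℤ) = c := ⟨c.toNat, Int.toNat_of_nonneg (by omega)⟩
    have hrs : r * s = m := by
      have : (r : ℤ) * s = m := by rw [hr, hs]; linarith
      exact_mod_cast this
    have hr0 : 0 < r := by omega
    have hlt : r < s := by
      rcases lt_or_eq_of_le r5 with h | h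
      · omega
      · exfalso
        have hrs' : r = s := by omega
        rw [← hrs'] at hrs
        have := Nat.isUnit_iff.1 (hsq r ⟨1, by rw [mul_one]; exact hrs.symm⟩)
        rw [this] at hrs
        exact hm1 hrs.symm
    have hs' : m / r = s := Nat.div_eq_of_eq_mul_right hr0 hrs.symm
    refine ⟨r, ?_, by rw [hs', hr, hs]⟩
    rw [AE, mem_filter, Nat.mem_divisors, hs']
    refine ⟨⟨⟨s, hrs.symm⟩, hm0⟩, ?_, ?_⟩
    · calc r * r < r * s := Nat.mul_lt_mul_of_pos_left hlt hr0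
        _ = m := hrs
    · rw [← Gm_diag hsq hrs, hr, hs]
      exact hG

theorem neg_iff {p : ℕ} (hp : p.Prime) {x : ℤ} (hx : ¬ (p : ℤ) ∣ x) :
    jacobiSym (-x) p = 1 ↔ jacobiSym x p = jacobiSym (-1) p := by
  have e : -x = -1 * x := by ring
  rw [e, jacobiSym.mul_left]
  have g1 : (-1 : ℤ).gcd p = 1 := by simp
  have g2 : x.gcd p = 1 := by
    have : IsCoprime x (p : ℤ) := by
      rw [isCoprime_comm]
      exact (Prime.coprime_iff_not_dvd (Nat.prime_iff_prime_int.1 hp)).2 hx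
    exact Int.isCoprime_iff_gcd_eq_one.1 this
  rcases jacobiSym.eq_one_or_neg_one g1 with k1 | k1 <;>
    rcases jacobiSym.eq_one_or_neg_one g2 with k2 | k2 <;> rw [k1, k2] <;> norm_num

theorem Cn_Cc {m r s : ℕ} (hsq : Squarefree m) (h : r * s = m) :
    Cn m (fun p => jacobiSym (-1) p) r ↔ Cc r s := by
  obtain ⟨-, -, hcop, hr0, hs0⟩ := sq_fac hsq h
  have hn : ∀ p : ℕ, p.Prime → p ∣ r → ¬ p ∣ s := fun p hp h h' =>
    hp.one_lt.ne' (Nat.eq_one_of_dvd_coprimes hcop h h')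
  have hm0 := hsq.ne_zero
  have k1 : ∀ p : ℕ, p.Prime → p ≠ 2 → p ∣ r →
      ((if p ∣ r then jacobiSym ((r / p * (m / p) : ℕ) : ℤ) p
        else jacobiSym ((r : ℕ) : ℤ) p) = jacobiSym (-1) p ↔
        jacobiSym (-(s : ℤ)) p = 1) := by
    intro p hp hp2 hpr
    rw [if_pos hpr, neg_iff hp (fun h' => hn p hp hpr (Int.natCast_dvd_natCast.1 h'))]
    obtain ⟨r', hr'⟩ := hpr
    have e1 : r / p * (m / p) = s * (r' * r') := by
      have a1 : r / p = r' := by
        rw [hr', Nat.mul_div_cancel_left _ hp.pos]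
      have a2 : m / p = r' * s := by
        rw [← h, hr', mul_assoc, Nat.mul_div_cancel_left _ hp.pos]
      rw [a1, a2]; ring
    have hpr' : ¬ p ∣ r' := by
      rintro ⟨k, hk⟩
      have : p * p ∣ m := ⟨k * s, by rw [← h, hr', hk]; ring⟩
      exact hp.one_lt.ne' (Nat.isUnit_iff.1 (hsq p this))
    have e2 : jacobiSym (((r' : ℤ)) ^ 2) p = 1 := by
      apply jacobiSym.sq_one'
      have := Nat.isCoprime_iff_coprime.2 ((Nat.Prime.coprime_iff_not_dvd hp).2 hpr').symm
      exact Int.isCoprime_iff_gcd_eq_one.1 this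
    rw [e1]
    push_cast
    rw [← sq, jacobiSym.mul_left, e2, mul_one]
  have k2 : ∀ p : ℕ, p.Prime → p ≠ 2 → p ∣ s →
      ((if p ∣ r then jacobiSym ((r / p * (m / p) : ℕ) : ℤ) p
        else jacobiSym ((r : ℕ) : ℤ) p) = jacobiSym (-1) p ↔
        jacobiSym (-(r : ℤ)) p = 1) := by
    intro p hp hp2 hps
    have hpr : ¬ p ∣ r := fun h' => hn p hp h' hps
    rw [if_neg hpr, neg_iff hp (fun h' => hpr (Int.natCast_dvd_natCast.1 h'))]
  constructor
  · intro H
    constructor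
    · intro p hp hp2
      have hpp := Nat.prime_of_mem_primeFactors hp
      have hps := Nat.dvd_of_mem_primeFactors hp
      exact (k2 p hpp hp2 hps).1 (H p (Nat.mem_primeFactors.2 ⟨hpp, by
        rw [← h]; exact Dvd.dvd.mul_left hps _, hm0⟩) hp2)
    · intro p hp hp2
      have hpp := Nat.prime_of_mem_primeFactors hp
      have hps := Nat.dvd_of_mem_primeFactors hp
      exact (k1 p hpp hp2 hps).1 (H p (Nat.mem_primeFactors.2 ⟨hpp, by
        rw [← h]; exact Dvd.dvd.mul_right hps _, hm0⟩) hp2)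
  · rintro ⟨H1, H2⟩ p hp hp2
    have hpp := Nat.prime_of_mem_primeFactors hp
    have hpm := Nat.dvd_of_mem_primeFactors hp
    rw [← h, Nat.Prime.dvd_mul hpp] at hpm
    rcases hpm with h3 | h3
    · exact (k1 p hpp hp2 h3).2 (H2 p (Nat.mem_primeFactors.2 ⟨hpp, h3, hr0.ne'⟩) hp2)
    · exact (k2 p hpp hp2 h3).2 (H1 p (Nat.mem_primeFactors.2 ⟨hpp, h3, hs0.ne'⟩) hp2)

/-- all factorizations -/
def DE (m : ℕ) : Finset ℕ := m.divisors.filter fun r => Cc r (m / r)

theorem mem_DE {m : ℕ} (hm0 : m ≠ 0) {r : ℕ} : r ∈ DE m ↔ r ∣ m ∧ Cc r (m / r) := by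
  rw [DE, mem_filter, Nat.mem_divisors]
  tauto

theorem card_DE {m : ℕ} (hsq : Squarefree m) (hm1 : m ≠ 1) : (DE m).card = 2 * (AE m).card := by
  have hm0 := hsq.ne_zero
  have h1 : (DE m).card = ((DE m).filter fun q => q * q < m).card +
      ((DE m).filter fun q => ¬ q * q < m).card :=
    (Finset.card_filter_add_card_filter_not _).symm
  have h2 : (DE m).filter (fun q => q * q < m) = AE m := by
    unfold DE AE
    rw [Finset.filter_filter]
    apply Finset.filter_congr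
    intro q _
    tauto
  have hfac : ∀ r, r ∣ m → r * (m / r) = m ∧ m / (m / r) = r ∧ 0 < r ∧ r * r ≠ m := by
    intro r hr
    have hrs : r * (m / r) = m := Nat.mul_div_cancel' hr
    refine ⟨hrs, Nat.div_div_self hr hm0, (sq_fac hsq hrs).2.2.2.1, ?_⟩
    intro h
    have := Nat.isUnit_iff.1 (hsq r ⟨1, by rw [mul_one]; exact h.symm⟩)
    rw [this] at h
    exact hm1 h.symm
  have h3 : ((DE m).filter fun q => ¬ q * q < m).card =
      ((DE m).filter fun q => q * q < m).card := by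
    refine Finset.card_bij' (fun q _ => m / q) (fun q _ => m / q) ?_ ?_ ?_ ?_
    · intro r hq
      obtain ⟨hq, hlt⟩ := mem_filter.1 hq
      rw [mem_DE hm0] at hq
      obtain ⟨q2, q4⟩ := hq
      obtain ⟨f1, f2, f3, f4⟩ := hfac r q2
      rw [mem_filter, mem_DE hm0]
      refine ⟨⟨Nat.div_dvd_of_dvd q2, ?_⟩, ?_⟩
      · rw [f2]; exact Cc_symm.1 q4
      · have h5 : m < r * r := lt_of_le_of_ne (not_lt.1 hlt) (Ne.symm f4)
        have h6 : r * (m / r) < r * r := by rw [f1]; exact h5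
        have h7 : m / r < r := lt_of_mul_lt_mul_left h6 (Nat.zero_le r)
        have h8 : m / r * (m / r) ≤ m := by
          calc m / r * (m / r) ≤ r * (m / r) := Nat.mul_le_mul_right _ h7.le
            _ = m := f1
        exact lt_of_le_of_ne h8 (hfac (m / r) (Nat.div_dvd_of_dvd q2)).2.2.2
    · intro r hq
      obtain ⟨hq, hlt⟩ := mem_filter.1 hq
      rw [mem_DE hm0] at hq
      obtain ⟨q2, q4⟩ := hq
      obtain ⟨f1, f2, f3, f4⟩ := hfac r q2
      rw [mem_filter, mem_DE hm0]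
      refine ⟨⟨Nat.div_dvd_of_dvd q2, ?_⟩, ?_⟩
      · rw [f2]; exact Cc_symm.1 q4
      · rw [not_lt]
        have h6 : r * r < r * (m / r) := by rw [f1]; exact hlt
        have h7 : r < m / r := lt_of_mul_lt_mul_left h6 (Nat.zero_le r)
        calc m = r * (m / r) := f1.symm
          _ ≤ m / r * (m / r) := Nat.mul_le_mul_right _ h7.le
    · intro r hq
      obtain ⟨hq, hlt⟩ := mem_filter.1 hq
      rw [mem_DE hm0] at hq
      exact (hfac r hq.1).2.1
    · intro r hq
      obtain ⟨hq, hlt⟩ := mem_filter.1 hq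
      rw [mem_DE hm0] at hq
      exact (hfac r hq.1).2.1
  rw [h1, h3, h2]
  ring

theorem card_sol {m : ℕ} (hsq : Squarefree m) (hm : m % 4 = 2) (κ : WW m → ZMod 2)
    (hκ : ∀ p : WW m, jacobiSym (-1) (p : ℕ) = sg (κ p)) :
    Nat.card {x // Lm m x = κ} = (DE m).card := by
  have hm0 := hsq.ne_zero
  have hsqt : ∀ r : ℕ, r ∈ DE m → Squarefree r ∧ ∀ p ∈ r.primeFactors, p ∣ 4 * m := by
    intro r hq
    rw [mem_DE hm0] at hq
    exact ⟨hsq.squarefree_of_dvd hq.1, fun p hp => ((Nat.dvd_of_mem_primeFactors hp).trans hq.1).trans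
        (Dvd.intro_left _ rfl)⟩
  have hcc : ∀ r : ℕ, r ∣ m → (Cn m (fun p => jacobiSym (-1) p) r ↔ Cc r (m / r)) := fun r hr =>
    Cn_Cc hsq (Nat.mul_div_cancel' hr)
  have key : Nat.card {q // q ∈ DE m} = Nat.card {x // Lm m x = κ} := by
    refine Nat.card_eq_of_bijective (fun q => (⟨fun p => if (p : ℕ) ∣ q.1 then 1 else 0,
      ?_⟩ : {x // Lm m x = κ})) ⟨?_, ?_⟩
    · obtain ⟨r, hq⟩ := q
      obtain ⟨s1, s2⟩ := hsqt r hq
      rw [← Cn_iff hsq κ (fun p => jacobiSym (-1) p) hκ, dv_of s1 s2 hm0]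
      rw [mem_DE hm0] at hq
      exact (hcc r hq.1).2 hq.2
    · rintro ⟨r, hq⟩ ⟨r', hq'⟩ heq
      have h1 := congrArg Subtype.val heq
      simp only at h1
      obtain ⟨s1, s2⟩ := hsqt r hq
      obtain ⟨s1', s2'⟩ := hsqt r' hq'
      have h2 : r = r' := by
        rw [← dv_of s1 s2 hm0, ← dv_of s1' s2' hm0, h1]
      exact Subtype.ext h2
    · rintro ⟨x, hx⟩
      rw [← Cn_iff hsq κ (fun p => jacobiSym (-1) p) hκ] at hx
      have d1 := dv_sq x
      have d2 := dv_supp x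
      have hr : dv (4 * m) x ∣ m := by
        apply sqdvd d1
        intro p hp
        have hpp := Nat.prime_of_mem_primeFactors hp
        have h6 := d2 p hp
        by_cases h7 : p = 2
        · subst h7
          omega
        · have h8 : Nat.Coprime p 4 := by
            have : (4 : ℕ) = 2 * 2 := rfl
            rw [this]
            have := (Nat.coprime_primes hpp Nat.prime_two).2 h7
            exact Nat.Coprime.mul_right this this
          exact h8.dvd_of_dvd_mul_left h6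
      have hmem : dv (4 * m) x ∈ DE m := by
        rw [mem_DE hm0]
        exact ⟨hr, (hcc _ hr).1 hx⟩
      refine ⟨⟨dv (4 * m) x, hmem⟩, ?_⟩
      apply Subtype.ext
      simp only
      apply dv_inj
      obtain ⟨s1, s2⟩ := hsqt _ hmem
      rw [dv_of s1 s2 hm0]
  rw [← key, Nat.card_eq_fintype_card, Fintype.card_coe]

/-- **the parity of the number of the ambiguous forms** -/
theorem par_AE {m : ℕ} (hsq : Squarefree m) (hm : m % 4 = 2) :
    Odd (AE m).card ↔ Pool.Agent.N969.P15.Qe (4 * m) := by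
  have hm0 := hsq.ne_zero
  have hm1 : m ≠ 1 := by omega
  have hκ : ∀ p : WW m, jacobiSym (-1) (p : ℕ) = sg (sy (-1) p) := by
    intro p
    refine (sg_sy ?_).symm
    simp
  have hcard : Fintype.card (PP (4 * m)) = Fintype.card (WW m) + 1 := by
    rw [Fintype.card_coe, Fintype.card_coe]
    exact card_pf4 hm0
  rw [Qe_iff hsq, ← lin2 hcard (Lm m) (ev_ne hsq hm1) (Lm_ev hsq) (fun p => sy (-1) p),
    card_sol hsq hm _ hκ, card_DE hsq hm1, Nat.odd_iff]
  omega

/-- **RE** -/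
theorem t_RE : Pool.Agent.N877.P24.S_RE := by
  intro n hsq hm
  refine ⟨((Rd (4 * n)).filter fun g => Gm n g).card, card_vec hsq hm, ?_⟩
  rw [← par_AE hsq hm, ← card_amb hsq hm, ← card_parity]
  exact Int.odd_coe_nat _

end Pool.Agent.N42.P24x
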