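import Pool.Agent.N42.P24x.U
import Pool.Agent.N42.P24x.RE
import Pool.Agent.N878.P24.Par

/-!
# P24x: the parity of the Gross sums, even discriminants, `S_PARE`
-/

set_option autoImplicit false

namespace Pool.Agent.N42.P24x

open Finset Matrix
open Pool.Agent.Z700 (V3 vec cp hh fac chi12)
open Pool.Agent.N877.P24
open Pool.Agent.N878.P24 (GG Hy Hz sum_symm ind33 ind32 rr_three cc_three card_mul fact_nine)

/-- the parity law with the constant `κ` -/
def GP (κ : ℤ) (n : ℕ) : Prop := ∃ g z : ℤ, RN n = κ * 2 ^ n.primeFactors.card * g ∧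
  CN n = κ * 2 ^ n.primeFactors.card * (g + 2 * z)

theorem GP.mul {κ1 κ2 : ℤ} {n1 n2 : ℕ} (h1 : GP κ1 n1) (h2 : GP κ2 n2) : ∃ t : ℤ,
    3 * RN n1 * RN n2 + CN n1 * CN n2 =
      κ1 * κ2 * 2 ^ (n1.primeFactors.card + n2.primeFactors.card + 1) * t := by
  obtain ⟨g1, z1, a1, b1⟩ := h1
  obtain ⟨g2, z2, a2, b2⟩ := h2
  refine ⟨2 * g1 * g2 + g1 * z2 + g2 * z1 + 2 * z1 * z2, ?_⟩
  rw [a1, a2, b1, b2, pow_succ, pow_add]
  ring

theorem card3 {d : ℕ} (hs : Squarefree (3 * d)) :
    (3 * d).primeFactors.card = d.primeFactors.card + 1 := by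
  rw [card_mul hs, Nat.Prime.primeFactors Nat.prime_three, Finset.card_singleton, add_comm]

theorem card2 {d : ℕ} (hs : Squarefree (2 * d)) :
    (2 * d).primeFactors.card = d.primeFactors.card + 1 := by
  rw [card_mul hs, Nat.Prime.primeFactors Nat.prime_two, Finset.card_singleton, add_comm]

theorem card6 {d : ℕ} (hs : Squarefree (6 * d)) :
    (6 * d).primeFactors.card = d.primeFactors.card + 2 := by
  have e : 6 * d = 2 * (3 * d) := by ring
  rw [e] at hs ⊢
  rw [card2 hs, card3 (hs.squarefree_of_dvd (Dvd.intro_left _ rfl))]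

theorem gp3 {d : ℕ} (hs : Squarefree d) (h8 : d % 8 = 1) (h3 : ¬ 3 ∣ d) (h1 : 1 < d) :
    GP 12 (3 * d) := by
  obtain ⟨g, z, a, b⟩ := ind33 t_R d ⟨hs, h8, h3⟩ h1
  have hs3 : Squarefree (3 * d) := by
    rw [Nat.squarefree_mul_iff]
    exact ⟨(Nat.Prime.coprime_iff_not_dvd Nat.prime_three).2 h3, Nat.prime_three.squarefree, hs⟩
  refine ⟨g, -g - z, ?_, ?_⟩
  · unfold RN
    rw [if_pos (by omega), if_pos (by omega), a, card3 hs3, pow_succ]
    ring
  · unfold CN
    rw [if_pos (by omega), if_pos (by omega), b, card3 hs3, pow_succ]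
    ring

theorem gp0 {n : ℕ} (hn : Cls0 n) : GP 24 n := by
  obtain ⟨g, z, a, -, b⟩ := ind32 t_R n hn
  have h24 := hn.2
  refine ⟨g, -g - z, ?_, ?_⟩
  · unfold RN
    rw [if_pos (by omega), if_neg (by omega), a]
    ring
  · unfold CN
    rw [if_pos (by omega), if_neg (by omega), b]
    ring

theorem RN3 : RN 3 = 8 := by
  unfold RN
  rw [if_pos (by norm_num), if_pos (by norm_num)]
  have : ((3 : ℕ) : ℤ) = 3 := by norm_num
  rw [this, rr_three]
  norm_num

theorem CN3 : CN 3 = 24 := by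
  unfold CN
  rw [if_pos (by norm_num), if_pos (by norm_num)]
  have : ((3 : ℕ) : ℤ) = 3 := by norm_num
  rw [this, cc_three]
  norm_num

theorem ClR3 : ClR 3 := ⟨by omega, by omega, by norm_num⟩

/-! ### sums -/

theorem sum_half (B : ℕ) (g : ℤ → ℤ) (hg : ∀ c, g (-c) = g c) :
    ∑ c ∈ Ioo (-(B : ℤ)) B, (if c % 4 = 2 then g c else 0) =
      2 * ∑ c ∈ Ioo (0 : ℤ) B, (if c % 4 = 2 then g c else 0) := by
  refine sum_symm B (fun c => if c % 4 = 2 then g c else 0) ?_ ?_
  · intro c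
    simp only [hg]
    by_cases hc : c % 4 = 2
    · have hc' : -c % 4 = 2 := by omega
      rw [if_pos hc, if_pos hc']
    · have hc' : ¬ -c % 4 = 2 := by omega
      rw [if_neg hc, if_neg hc']
  · simp

theorem sum_swap {P : Finset ℕ} {s : Finset ℤ} {f g : ℕ → ℤ → ℤ}
    (h : ∀ e ∈ P, ∀ c ∈ s, c % 4 = 2 → f e c = 48 * g e c) :
    ∑ e ∈ P, ∑ c ∈ s, (if c % 4 = 2 then f e c else 0) =
      48 * ∑ c ∈ s, (if c % 4 = 2 then ∑ e ∈ P, g e c else 0) := by
  rw [Finset.sum_comm, Finset.mul_sum]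
  refine Finset.sum_congr rfl fun c hc => ?_
  split_ifs with h4
  · rw [Finset.mul_sum]
    exact Finset.sum_congr rfl fun e he => h e he c hc h4
  · simp

theorem div_dvd' {M e : ℕ} (hM : M ≠ 0) (he : e ∈ M.divisors.filter (fun d => d % 8 = M % 8)) :
    e ∣ M ∧ e % 8 = M % 8 := by
  rw [Finset.mem_filter, Nat.mem_divisors] at he
  exact ⟨he.1.1, he.2⟩

/-- the first total sum -/
theorem total2 (hPCE : S_PCE) {M B : ℕ} (hs : Squarefree M) (h2 : ¬ 2 ∣ M) (h3 : ¬ 3 ∣ M)
    (hpos : ∀ c ∈ Ioo (-(B : ℤ)) B, 0 < 6 * (M : ℤ) - 9 * c ^ 2) :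
    (24 * 2 ^ (M.primeFactors.card + 1) : ℤ) ∣
      ∑ e ∈ M.divisors.filter (fun d => d % 8 = M % 8), Ssum B (2 * e) (3 * (M / e)) +
        ∑ e ∈ M.divisors.filter (fun d => d % 8 = (3 * M) % 8), Ssum B (6 * e) (M / e) := by
  have hDc : ∀ c ∈ Ioo (-(B : ℤ)) B, ((6 * (M : ℤ) - 9 * c ^ 2).toNat : ℤ) = 6 * M - 9 * c ^ 2 :=
    fun c hc => Int.toNat_of_nonneg (hpos c hc).le
  have e1 : ∑ e ∈ M.divisors.filter (fun d => d % 8 = M % 8), Ssum B (2 * e) (3 * (M / e)) =
      48 * ∑ c ∈ Ioo (-(B : ℤ)) B, (if c % 4 = 2 then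
        ∑ e ∈ M.divisors.filter (fun d => d % 8 = M % 8),
          GG (2 * e) (6 * (M : ℤ) - 9 * c ^ 2).toNat else 0) := by
    unfold Ssum
    refine sum_swap fun e he c hc h4 => ?_
    rw [Finset.mem_filter, Nat.mem_divisors] at he
    have hp := hpos c hc
    exact cpA hPCE hs h2 h3 he.1.1 he.2 h4 (hDc c hc) (by omega)
  have e2 : ∑ e ∈ M.divisors.filter (fun d => d % 8 = (3 * M) % 8), Ssum B (6 * e) (M / e) =
      48 * ∑ c ∈ Ioo (-(B : ℤ)) B, (if c % 4 = 2 then
        ∑ e ∈ M.divisors.filter (fun d => d % 8 = (3 * M) % 8),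
          GG (6 * e) (6 * (M : ℤ) - 9 * c ^ 2).toNat else 0) := by
    unfold Ssum
    refine sum_swap fun e he c hc h4 => ?_
    rw [Finset.mem_filter, Nat.mem_divisors] at he
    have hp := hpos c hc
    exact (cpB hPCE hs h2 h3 he.1.1 he.2 h4 (hDc c hc) (by omega)).1
  rw [e1, e2, sum_half, sum_half]
  · have hMo := e_odd h2 dvd_rfl
    have key : (2 : ℤ) ^ (M.primeFactors.card + 1) ∣ ∑ c ∈ Ioo (0 : ℤ) B,
        4 * ((if c % 4 = 2 then ∑ e ∈ M.divisors.filter (fun d => d % 8 = M % 8),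
          GG (2 * e) (6 * (M : ℤ) - 9 * c ^ 2).toNat else 0) +
          (if c % 4 = 2 then ∑ e ∈ M.divisors.filter (fun d => d % 8 = (3 * M) % 8),
          GG (6 * e) (6 * (M : ℤ) - 9 * c ^ 2).toNat else 0)) := by
      refine Finset.dvd_sum fun c hc => ?_
      have hc' : c ∈ Ioo (-(B : ℤ)) B := by
        rw [Finset.mem_Ioo] at hc ⊢
        omega
      split_ifs with h4
      · have hp := hpos c hc'
        obtain ⟨-, -, d3, -⟩ := dat2 hs h2 h3 h4 (hDc c hc') (by omega)
        exact div2 dvd_rfl hs h2 h3 d3 (by norm_num) dvd_rfl (by omega) (by omega)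
      · simp
    obtain ⟨x, hx⟩ := key
    refine ⟨x, ?_⟩
    rw [← Finset.mul_sum, Finset.sum_add_distrib] at hx
    linear_combination 24 * hx
  · intro c
    simp only [neg_sq]
  · intro c
    simp only [neg_sq]

/-- the second total sum -/
theorem total6 (hREL : S_RELG) (hPCE : S_PCE) (hCP : S_CP3E) {M B : ℕ} (hs : Squarefree M)
    (h2 : ¬ 2 ∣ M) (h3 : ¬ 3 ∣ M)
    (hpos : ∀ c ∈ Ioo (-(B : ℤ)) B, 0 < 2 * (M : ℤ) - c ^ 2) (hB : 2 * M < B ^ 2) (hB0 : 0 < B)
    (ih : ∀ e, e ∣ M → e < M → e % 3 = 1 → GP 24 (2 * e)) :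
    (24 * 2 ^ (M.primeFactors.card + 1) : ℤ) ∣
      ∑ e ∈ M.divisors.filter (fun d => d % 8 = M % 8), Ssum B (6 * e) (3 * (M / e)) := by
  set k := M.primeFactors.card with hk
  have hMo := e_odd h2 dvd_rfl
  have hEc : ∀ c ∈ Ioo (-(B : ℤ)) B, ((2 * (M : ℤ) - c ^ 2).toNat : ℤ) = 2 * M - c ^ 2 :=
    fun c hc => Int.toNat_of_nonneg (hpos c hc).le
  have e1 : ∑ e ∈ M.divisors.filter (fun d => d % 8 = M % 8), Ssum B (6 * e) (3 * (M / e)) =
      48 * ∑ c ∈ Ioo (-(B : ℤ)) B, (if c % 4 = 2 then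
        ∑ e ∈ M.divisors.filter (fun d => d % 8 = M % 8),
          GG (6 * e) (9 * (2 * (M : ℤ) - c ^ 2).toNat) else 0) := by
    unfold Ssum
    refine sum_swap fun e he c hc h4 => ?_
    rw [Finset.mem_filter, Nat.mem_divisors] at he
    have hp := hpos c hc
    exact cpC hPCE hs h2 h3 he.1.1 he.2 h4 (hEc c hc) (by omega)
  set K : ℤ → ℤ := fun c => (((2 * (M : ℤ) - c ^ 2).toNat.factorization 3 : ℕ) : ℤ) *
    ∑ e ∈ M.divisors.filter (fun d => d % 8 = (3 * M) % 8 ∧ d % 3 = 1),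
      GG (2 * e) (2 * (M : ℤ) - c ^ 2).toNat with hK
  have hKs : ∀ c, K (-c) = K c := by
    intro c
    simp only [hK, neg_sq]
  -- the auxiliary sum
  have haux : (2 : ℤ) ^ (k + 2) ∣ 4 * ∑ c ∈ Ioo (-(B : ℤ)) B, (if c % 4 = 2 then K c else 0) := by
    by_cases hM3 : M % 3 = 2
    swap
    · have hz : ∀ c ∈ Ioo (-(B : ℤ)) B, (if c % 4 = 2 then K c else 0) = 0 := by
        intro c hc
        have hp := hpos c hc
        have h6 : ¬ 3 ∣ (2 * (M : ℤ) - c ^ 2).toNat := by
          intro h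
          have h7 : (3 : ℤ) ∣ 2 * (M : ℤ) - c ^ 2 := by
            rw [← hEc c hc]
            exact_mod_cast h
          have h8 : c % 3 = 0 ∨ c % 3 = 1 ∨ c % 3 = 2 := by omega
          rcases h8 with h8 | h8 | h8
          · have : c ^ 2 % 3 = 0 := by rw [sq, Int.mul_emod, h8]; norm_num
            omega
          · have : c ^ 2 % 3 = 1 := by rw [sq, Int.mul_emod, h8]; norm_num
            omega
          · have : c ^ 2 % 3 = 1 := by rw [sq, Int.mul_emod, h8]; norm_num
            omega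
        simp only [hK]
        rw [Nat.factorization_eq_zero_of_not_dvd h6]
        simp
      rw [Finset.sum_eq_zero hz, mul_zero]
      exact dvd_zero _
    have hsw : ∑ e ∈ M.divisors.filter (fun d => d % 8 = (3 * M) % 8 ∧ d % 3 = 1),
        Saux B (2 * e) (M / e) = 48 * ∑ c ∈ Ioo (-(B : ℤ)) B, (if c % 4 = 2 then
        ∑ e ∈ M.divisors.filter (fun d => d % 8 = (3 * M) % 8 ∧ d % 3 = 1),
          (((2 * (M : ℤ) - c ^ 2).toNat.factorization 3 : ℕ) : ℤ) *
            GG (2 * e) (2 * (M : ℤ) - c ^ 2).toNat else 0) := by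
      unfold Saux
      refine sum_swap fun e he c hc h4 => ?_
      rw [Finset.mem_filter, Nat.mem_divisors] at he
      have hp := hpos c hc
      exact cpD hPCE hCP hs h2 h3 he.1.1 he.2.2 hM3 (hEc c hc) (by omega)
    have hKe : ∀ c, K c = ∑ e ∈ M.divisors.filter (fun d => d % 8 = (3 * M) % 8 ∧ d % 3 = 1),
          (((2 * (M : ℤ) - c ^ 2).toNat.factorization 3 : ℕ) : ℤ) *
            GG (2 * e) (2 * (M : ℤ) - c ^ 2).toNat := by
      intro c
      simp only [hK]
      rw [Finset.mul_sum]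
    have hd : (12 * 2 ^ (k + 2) : ℤ) ∣
        ∑ e ∈ M.divisors.filter (fun d => d % 8 = (3 * M) % 8 ∧ d % 3 = 1),
          Saux B (2 * e) (M / e) := by
      refine Finset.dvd_sum fun e he => ?_
      rw [Finset.mem_filter, Nat.mem_divisors] at he
      obtain ⟨⟨heM, -⟩, h8, h31⟩ := he
      have heo := e_odd h2 heM
      have hMe : e * (M / e) = M := Nat.mul_div_cancel' heM
      have hMe3 : (M / e) % 3 = 2 := by
        have h6 : (e * (M / e)) % 3 = 2 := by rw [hMe]; exact hM3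
        rw [Nat.mul_mod, h31, one_mul, Nat.mod_mod] at h6
        exact h6
      have hMe8 : (M / e) % 8 = 3 := by
        have h6 : (e * (M / e)) % 8 = M % 8 := by rw [hMe]
        rw [Nat.mul_mod, h8] at h6
        have h7 : M % 8 = 1 ∨ M % 8 = 3 ∨ M % 8 = 5 ∨ M % 8 = 7 := by omega
        have h9 : (3 * M) % 8 = (3 * (M % 8)) % 8 := by omega
        rw [h9] at h6
        have : M / e % 8 < 8 := Nat.mod_lt _ (by norm_num)
        generalize M / e % 8 = x at *
        rcases h7 with h7 | h7 | h7 | h7 <;> rw [h7] at h6 <;> interval_cases x <;> omega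
      have hlt : e < M := by
        have h6 : M / e ≠ 1 := by omega
        have h7 : e ≤ M := Nat.le_of_dvd (by omega) heM
        refine lt_of_le_of_ne h7 fun h => h6 ?_
        rw [h]
        exact Nat.div_self (by omega)
      have g1 := ih e heM hlt h31
      have g2 : GP 24 (M / e) := gp0 ⟨hs.squarefree_of_dvd (Nat.div_dvd_of_dvd heM), by omega⟩
      obtain ⟨t, ht⟩ := g1.mul g2
      have hsq2 := sqf_mul (Or.inl rfl) hs h2 h3 heM
      have hrel := relAux hREL (B := B) (n1 := 2 * e) (n2 := M / e) ⟨by omega, by omega, by omega⟩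
        ⟨by omega, by omega, by omega⟩ (by omega) hMe8 (by omega) (by omega)
        (by
          have : 2 * e * (M / e) = 2 * M := by rw [mul_assoc, hMe]
          rw [this]; exact hB) hB0
      have hcard : (2 * e).primeFactors.card + (M / e).primeFactors.card + 1 = k + 2 := by
        rw [card2 hsq2, hk]
        have := card_mul (a := e) (b := M / e) (by rw [hMe]; exact hs)
        rw [hMe] at this
        omega
      rw [hcard] at ht
      refine ⟨t, ?_⟩
      have h48 : 48 * Saux B (2 * e) (M / e) = 48 * (12 * 2 ^ (k + 2) * t) := by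
        rw [hrel, ht]; ring
      exact mul_left_cancel₀ (by norm_num) h48
    rw [hsw] at hd
    obtain ⟨x, hx⟩ := hd
    refine ⟨x, ?_⟩
    have e5 : ∑ c ∈ Ioo (-(B : ℤ)) B, (if c % 4 = 2 then K c else 0) =
        ∑ c ∈ Ioo (-(B : ℤ)) B, (if c % 4 = 2 then
        ∑ e ∈ M.divisors.filter (fun d => d % 8 = (3 * M) % 8 ∧ d % 3 = 1),
          (((2 * (M : ℤ) - c ^ 2).toNat.factorization 3 : ℕ) : ℤ) *
            GG (2 * e) (2 * (M : ℤ) - c ^ 2).toNat else 0) :=
      Finset.sum_congr rfl fun c _ => by rw [hKe]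
    rw [e5]
    have h12 : (12 : ℤ) * (4 * ∑ c ∈ Ioo (-(B : ℤ)) B, (if c % 4 = 2 then
        ∑ e ∈ M.divisors.filter (fun d => d % 8 = (3 * M) % 8 ∧ d % 3 = 1),
          (((2 * (M : ℤ) - c ^ 2).toNat.factorization 3 : ℕ) : ℤ) *
            GG (2 * e) (2 * (M : ℤ) - c ^ 2).toNat else 0)) = 12 * (2 ^ (k + 2) * x) := by
      linarith
    exact mul_left_cancel₀ (by norm_num) h12
  rw [sum_half B K hKs] at haux
  have haux2 : (2 : ℤ) ^ (k + 1) ∣ 4 * ∑ c ∈ Ioo (0 : ℤ) B, (if c % 4 = 2 then K c else 0) := by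
    obtain ⟨x, hx⟩ := haux
    refine ⟨x, ?_⟩
    have e6 : (2 : ℤ) ^ (k + 2) = 2 * 2 ^ (k + 1) := by rw [pow_succ]; ring
    rw [e6] at hx
    linarith
  rw [e1, sum_half]
  · have key : (2 : ℤ) ^ (k + 1) ∣ ∑ c ∈ Ioo (0 : ℤ) B,
        (4 * (if c % 4 = 2 then ∑ e ∈ M.divisors.filter (fun d => d % 8 = M % 8),
          GG (6 * e) (9 * (2 * (M : ℤ) - c ^ 2).toNat) else 0) -
          4 * (if c % 4 = 2 then K c else 0)) := by
      refine Finset.dvd_sum fun c hc => ?_
      have hc' : c ∈ Ioo (-(B : ℤ)) B := by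
        rw [Finset.mem_Ioo] at hc ⊢
        omega
      split_ifs with h4
      · have hp := hpos c hc'
        obtain ⟨d1, d2, d3, d4, u, hu, hu8⟩ := dat6 hs h2 h4 (hEc c hc') (by omega)
        exact div6 hs h2 h3 (by omega) d2 d3 d4 d1 hu hu8 hMo
      · simp
    obtain ⟨x, hx⟩ := key
    obtain ⟨y, hy⟩ := haux2
    refine ⟨x + y, ?_⟩
    rw [Finset.sum_sub_distrib, ← Finset.mul_sum, ← Finset.mul_sum] at hx
    linear_combination 24 * hx + 24 * hy
  · intro c
    simp only [neg_sq]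

/-! ### the induction -/

theorem ge_of_mod {M e : ℕ} (h2 : ¬ 2 ∣ M) (heM : e ∣ M) (r : ℕ)
    (hr : r = 1 ∨ r = 3) (h8 : e % 8 = (r * M) % 8) : (M / e) % 8 = r := by
  have hMo := e_odd h2 dvd_rfl
  have hMe : e * (M / e) = M := Nat.mul_div_cancel' heM
  have h6 : (e * (M / e)) % 8 = M % 8 := by rw [hMe]
  rw [Nat.mul_mod, h8] at h6
  have h7 : M % 8 = 1 ∨ M % 8 = 3 ∨ M % 8 = 5 ∨ M % 8 = 7 := by omega
  have h9 : (r * M) % 8 = (r * (M % 8)) % 8 := by rw [Nat.mul_mod_mod]
  rw [h9] at h6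
  have : M / e % 8 < 8 := Nat.mod_lt _ (by norm_num)
  generalize M / e % 8 = x at *
  rcases hr with rfl | rfl <;> rcases h7 with h7 | h7 | h7 | h7 <;> rw [h7] at h6 <;>
    interval_cases x <;> omega

/-- the conclusion from the divisibility of the basic sum -/
theorem gp_of_base (hREL : S_RELG) {κ : ℤ} {B n : ℕ} (hn : ClR n) (hn4 : n % 4 = 2)
    (hB : n * 3 < 9 * B ^ 2) (hB0 : 0 < B) {g : ℤ} (hg : RN n = κ * 2 ^ n.primeFactors.card * g)
    (hd : κ * 2 ^ n.primeFactors.card ∣ Ssum B n 3) : GP κ n := by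
  have hrel := relS hREL (B := B) hn ClR3 hn4 (by norm_num) (Or.inr dvd_rfl) hB hB0
  rw [RN3, CN3] at hrel
  obtain ⟨t, ht⟩ := hd
  refine ⟨g, t - g, hg, ?_⟩
  rw [ht, hg] at hrel
  have : 24 * CN n = 24 * (κ * 2 ^ n.primeFactors.card * (g + 2 * (t - g))) := by
    linear_combination -hrel
  exact mul_left_cancel₀ (by norm_num) this

theorem two (hREL : S_RELG) (hPCE : S_PCE) {M : ℕ} (hs : Squarefree M) (h2 : ¬ 2 ∣ M)
    (h3 : ¬ 3 ∣ M) (hM3 : M % 3 = 1)
    (ih : ∀ e, e ∣ M → e < M → ((e % 3 = 1 → GP 24 (2 * e)) ∧ GP 12 (6 * e))) :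
    GP 24 (2 * M) := by
  set k := M.primeFactors.card with hk
  have hMo := e_odd h2 dvd_rfl
  have hM0 : M ≠ 0 := hs.ne_zero
  have hsq2 := sqf_mul (Or.inl rfl) hs h2 h3 (dvd_refl M)
  have hc2 : (2 * M).primeFactors.card = k + 1 := card2 hsq2
  obtain ⟨B, hB, hB0, hpos⟩ : ∃ B : ℕ, 2 * M < 3 * B ^ 2 ∧ 0 < B ∧
      ∀ c ∈ Ioo (-(B : ℤ)) B, 0 < 6 * (M : ℤ) - 9 * c ^ 2 := by
    refine ⟨Nat.sqrt (2 * M / 3) + 1, ?_, by omega, ?_⟩
    · have := Nat.lt_succ_sqrt' (2 * M / 3)
      rw [Nat.succ_eq_add_one] at this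
      omega
    · intro c hc
      rw [Finset.mem_Ioo] at hc
      push_cast at hc
      have h4 : |c| ≤ Nat.sqrt (2 * M / 3) := by
        rw [abs_le]
        constructor <;> omega
      have h5 : c ^ 2 ≤ ((Nat.sqrt (2 * M / 3) ^ 2 : ℕ) : ℤ) := by
        rw [← sq_abs]
        push_cast
        exact pow_le_pow_left₀ (abs_nonneg _) h4 2
      have h6 : ((Nat.sqrt (2 * M / 3) ^ 2 : ℕ) : ℤ) ≤ ((2 * M / 3 : ℕ) : ℤ) := by
        exact_mod_cast Nat.sqrt_le' (2 * M / 3)
      omega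
  obtain ⟨g, hg, -⟩ := t_RE (2 * M) hsq2 (by omega)
  refine gp_of_base hREL (B := B) (g := g) ⟨by omega, by omega, by omega⟩ (by omega) (by omega) hB0
    ?_ ?_
  · unfold RN
    rw [if_neg (by omega), if_neg (by omega), hg]
    ring
  · rw [hc2]
    have htot := total2 hPCE hs h2 h3 hpos
    have hMm : M ∈ M.divisors.filter (fun d => d % 8 = M % 8) := by
      rw [Finset.mem_filter, Nat.mem_divisors]
      exact ⟨⟨dvd_rfl, hM0⟩, rfl⟩
    rw [← Finset.add_sum_erase _ _ hMm, Nat.div_self (by omega), mul_one, add_assoc] at htot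
    refine (Int.dvd_add_left ?_).1 htot
    refine dvd_add (Finset.dvd_sum fun e he => ?_) (Finset.dvd_sum fun e he => ?_)
    · rw [Finset.mem_erase, Finset.mem_filter, Nat.mem_divisors] at he
      obtain ⟨hne, ⟨heM, -⟩, h8⟩ := he
      have heo := e_odd h2 heM
      have hMe : e * (M / e) = M := Nat.mul_div_cancel' heM
      have hMe8 := ge_of_mod h2 heM 1 (Or.inl rfl) (by rw [one_mul]; exact h8)
      have hlt : e < M := lt_of_le_of_ne (Nat.le_of_dvd (by omega) heM) hne
      have h1 : M / e ≠ 1 := by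
        intro h
        rw [h, mul_one] at hMe
        exact hne hMe
      have he3 : ¬ 3 ∣ e := fun h => h3 (h.trans heM)
      have hf3 : ¬ 3 ∣ M / e := fun h => h3 (h.trans (Nat.div_dvd_of_dvd heM))
      have hsf := hs.squarefree_of_dvd (Nat.div_dvd_of_dvd heM)
      by_cases he31 : e % 3 = 1
      · have g1 := (ih e heM hlt).1 he31
        have g2 := gp3 hsf hMe8 hf3 (by generalize M / e = x at hMe8 h1 ⊢; omega)
        obtain ⟨t, ht⟩ := g1.mul g2
        have hsqe := sqf_mul (Or.inl rfl) hs h2 h3 heM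
        have hrel := relS hREL (B := B) (n1 := 2 * e) (n2 := 3 * (M / e))
          ⟨by omega, by omega, by omega⟩ ⟨by omega, by omega, by omega⟩ (by omega) (by omega)
          (Or.inr (Dvd.intro _ rfl)) (by
            have : 2 * e * (3 * (M / e)) = 6 * M := by
              calc 2 * e * (3 * (M / e)) = 6 * (e * (M / e)) := by ring
                _ = 6 * M := by rw [hMe]
            rw [this]; omega) hB0
        have hsq3 : Squarefree (3 * (M / e)) := by
          rw [Nat.squarefree_mul_iff]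
          exact ⟨(Nat.Prime.coprime_iff_not_dvd Nat.prime_three).2 hf3,
            Nat.prime_three.squarefree, hsf⟩
        have hcard : (2 * e).primeFactors.card + (3 * (M / e)).primeFactors.card + 1 = k + 3 := by
          rw [card2 hsqe, card3 hsq3, hk]
          have := card_mul (a := e) (b := M / e) (by rw [hMe]; exact hs)
          rw [hMe] at this
          omega
        rw [hcard] at ht
        refine ⟨t, ?_⟩
        have h48 : 48 * Ssum B (2 * e) (3 * (M / e)) = 48 * (24 * 2 ^ (k + 1) * t) := by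
          rw [hrel, ht]; ring
        exact mul_left_cancel₀ (by norm_num) h48
      · have hz : Ssum B (2 * e) (3 * (M / e)) = 0 := by
          unfold Ssum
          refine Finset.sum_eq_zero fun c hc => ?_
          split_ifs with h4
          · have hp := hpos c hc
            have hDc : ((6 * (M : ℤ) - 9 * c ^ 2).toNat : ℤ) = 6 * M - 9 * c ^ 2 :=
              Int.toNat_of_nonneg hp.le
            rw [cpA hPCE hs h2 h3 heM h8 h4 hDc (by omega),
              cpA_zero hs h2 h3 heM h8 h4 hDc (by omega) (by omega), mul_zero]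
          · rfl
        rw [hz]
        exact dvd_zero _
    · rw [Finset.mem_filter, Nat.mem_divisors] at he
      obtain ⟨⟨heM, -⟩, h8⟩ := he
      have heo := e_odd h2 heM
      have hMe : e * (M / e) = M := Nat.mul_div_cancel' heM
      have hMe8 := ge_of_mod h2 heM 3 (Or.inr rfl) h8
      have hlt : e < M := by
        have h6 : M / e ≠ 1 := by omega
        have h7 : e ≤ M := Nat.le_of_dvd (by omega) heM
        refine lt_of_le_of_ne h7 fun h => h6 ?_
        rw [h]
        exact Nat.div_self (by omega)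
      have he3 : ¬ 3 ∣ e := fun h => h3 (h.trans heM)
      have hf3 : ¬ 3 ∣ M / e := fun h => h3 (h.trans (Nat.div_dvd_of_dvd heM))
      have hsf := hs.squarefree_of_dvd (Nat.div_dvd_of_dvd heM)
      by_cases he31 : e % 3 = 1
      · have hz : Ssum B (6 * e) (M / e) = 0 := by
          unfold Ssum
          refine Finset.sum_eq_zero fun c hc => ?_
          split_ifs with h4
          · have hp := hpos c hc
            have hDc : ((6 * (M : ℤ) - 9 * c ^ 2).toNat : ℤ) = 6 * M - 9 * c ^ 2 :=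
              Int.toNat_of_nonneg hp.le
            exact (cpB hPCE hs h2 h3 heM h8 h4 hDc (by omega)).2 hM3 he31
          · rfl
        rw [hz]
        exact dvd_zero _
      · have hMe3 : (M / e) % 3 = 2 := by
          have h6 : (e * (M / e)) % 3 = 1 := by rw [hMe]; exact hM3
          have h7 : e % 3 = 2 := by omega
          rw [Nat.mul_mod, h7] at h6
          have : M / e % 3 < 3 := Nat.mod_lt _ (by norm_num)
          generalize M / e % 3 = x at *
          interval_cases x <;> omega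
        have g1 := (ih e heM hlt).2
        have g2 : GP 24 (M / e) := gp0 ⟨hsf, by omega⟩
        obtain ⟨t, ht⟩ := g1.mul g2
        have hsqe := sqf_mul (Or.inr rfl) hs h2 h3 heM
        have hrel := relS hREL (B := B) (n1 := 6 * e) (n2 := M / e)
          ⟨by omega, by omega, by omega⟩ ⟨by omega, by omega, by omega⟩ (by omega) hMe8
          (Or.inl ⟨2 * e, by ring⟩) (by
            have : 6 * e * (M / e) = 6 * M := by rw [mul_assoc, hMe]
            rw [this]; omega) hB0
        have hcard : (6 * e).primeFactors.card + (M / e).primeFactors.card + 1 = k + 3 := by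
          rw [card6 hsqe, hk]
          have := card_mul (a := e) (b := M / e) (by rw [hMe]; exact hs)
          rw [hMe] at this
          omega
        rw [hcard] at ht
        refine ⟨t, ?_⟩
        have h48 : 48 * Ssum B (6 * e) (M / e) = 48 * (24 * 2 ^ (k + 1) * t) := by
          rw [hrel, ht]; ring
        exact mul_left_cancel₀ (by norm_num) h48

theorem six (hREL : S_RELG) (hPCE : S_PCE) (hCP : S_CP3E) {M : ℕ} (hs : Squarefree M)
    (h2 : ¬ 2 ∣ M) (h3 : ¬ 3 ∣ M)
    (ih : ∀ e, e ∣ M → e < M → ((e % 3 = 1 → GP 24 (2 * e)) ∧ GP 12 (6 * e))) :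
    GP 12 (6 * M) := by
  set k := M.primeFactors.card with hk
  have hMo := e_odd h2 dvd_rfl
  have hM0 : M ≠ 0 := hs.ne_zero
  have hsq6 := sqf_mul (Or.inr rfl) hs h2 h3 (dvd_refl M)
  have hc6 : (6 * M).primeFactors.card = k + 2 := card6 hsq6
  obtain ⟨B, hB, hB0, hpos⟩ : ∃ B : ℕ, 2 * M < B ^ 2 ∧ 0 < B ∧
      ∀ c ∈ Ioo (-(B : ℤ)) B, 0 < 2 * (M : ℤ) - c ^ 2 := by
    refine ⟨Nat.sqrt (2 * M) + 1, ?_, by omega, ?_⟩
    · have := Nat.lt_succ_sqrt' (2 * M)
      rwa [Nat.succ_eq_add_one] at this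
    · intro c hc
      rw [Finset.mem_Ioo] at hc
      push_cast at hc
      have h4 : |c| ≤ Nat.sqrt (2 * M) := by
        rw [abs_le]
        constructor <;> omega
      have h5 : c ^ 2 ≤ ((Nat.sqrt (2 * M) ^ 2 : ℕ) : ℤ) := by
        rw [← sq_abs]
        push_cast
        exact pow_le_pow_left₀ (abs_nonneg _) h4 2
      have h6 : ((Nat.sqrt (2 * M) ^ 2 : ℕ) : ℤ) ≤ ((2 * M : ℕ) : ℤ) := by
        exact_mod_cast Nat.sqrt_le' (2 * M)
      have h7 : c ^ 2 % 4 = 0 ∨ c ^ 2 % 4 = 1 := by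
        rcases Int.even_or_odd c with ⟨x, hx⟩ | ⟨x, hx⟩
        · left
          have : c ^ 2 = 4 * x ^ 2 := by rw [hx]; ring
          omega
        · right
          have : c ^ 2 = 4 * (x ^ 2 + x) + 1 := by rw [hx]; ring
          omega
      have h8 := h5.trans h6
      push_cast at h8
      omega
  obtain ⟨g, hg, -⟩ := t_RE (6 * M) hsq6 (by omega)
  refine gp_of_base hREL (B := B) (g := g) ⟨by omega, by omega, by omega⟩ (by omega) (by omega) hB0
    ?_ ?_
  · unfold RN
    rw [if_neg (by omega), if_pos (by omega), hg]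
    ring
  · rw [hc6]
    have htot := total6 hREL hPCE hCP hs h2 h3 hpos hB hB0 (fun e h1 h2 => (ih e h1 h2).1)
    have hMm : M ∈ M.divisors.filter (fun d => d % 8 = M % 8) := by
      rw [Finset.mem_filter, Nat.mem_divisors]
      exact ⟨⟨dvd_rfl, hM0⟩, rfl⟩
    rw [← Finset.add_sum_erase _ _ hMm, Nat.div_self (by omega), mul_one] at htot
    have e24 : (24 * 2 ^ (M.primeFactors.card + 1) : ℤ) = 12 * 2 ^ (k + 2) := by
      rw [hk, pow_succ _ (M.primeFactors.card + 1)]; ring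
    rw [e24] at htot
    refine (Int.dvd_add_left ?_).1 htot
    refine Finset.dvd_sum fun e he => ?_
    rw [Finset.mem_erase, Finset.mem_filter, Nat.mem_divisors] at he
    obtain ⟨hne, ⟨heM, -⟩, h8⟩ := he
    have heo := e_odd h2 heM
    have hMe : e * (M / e) = M := Nat.mul_div_cancel' heM
    have hMe8 := ge_of_mod h2 heM 1 (Or.inl rfl) (by rw [one_mul]; exact h8)
    have hlt : e < M := lt_of_le_of_ne (Nat.le_of_dvd (by omega) heM) hne
    have h1 : M / e ≠ 1 := by
      intro h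
      rw [h, mul_one] at hMe
      exact hne hMe
    have he3 : ¬ 3 ∣ e := fun h => h3 (h.trans heM)
    have hf3 : ¬ 3 ∣ M / e := fun h => h3 (h.trans (Nat.div_dvd_of_dvd heM))
    have hsf := hs.squarefree_of_dvd (Nat.div_dvd_of_dvd heM)
    have g1 := (ih e heM hlt).2
    have g2 := gp3 hsf hMe8 hf3 (by generalize M / e = x at hMe8 h1 ⊢; omega)
    obtain ⟨t, ht⟩ := g1.mul g2
    have hsqe := sqf_mul (Or.inr rfl) hs h2 h3 heM
    have hrel := relS hREL (B := B) (n1 := 6 * e) (n2 := 3 * (M / e))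
      ⟨by omega, by omega, by omega⟩ ⟨by omega, by omega, by omega⟩ (by omega) (by omega)
      (Or.inr (Dvd.intro _ rfl)) (by
        have : 6 * e * (3 * (M / e)) = 18 * M := by
          calc 6 * e * (3 * (M / e)) = 18 * (e * (M / e)) := by ring
            _ = 18 * M := by rw [hMe]
        rw [this]; omega) hB0
    have hsq3 : Squarefree (3 * (M / e)) := by
      rw [Nat.squarefree_mul_iff]
      exact ⟨(Nat.Prime.coprime_iff_not_dvd Nat.prime_three).2 hf3,
        Nat.prime_three.squarefree, hsf⟩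
    have hcard : (6 * e).primeFactors.card + (3 * (M / e)).primeFactors.card + 1 = k + 4 := by
      rw [card6 hsqe, card3 hsq3, hk]
      have := card_mul (a := e) (b := M / e) (by rw [hMe]; exact hs)
      rw [hMe] at this
      omega
    rw [hcard] at ht
    refine ⟨t, ?_⟩
    have h48 : 48 * Ssum B (6 * e) (3 * (M / e)) = 48 * (12 * 2 ^ (k + 2) * t) := by
      rw [hrel, ht]; ring
    exact mul_left_cancel₀ (by norm_num) h48

theorem main (hREL : S_RELG) (hPCE : S_PCE) (hCP : S_CP3E) : ∀ M : ℕ, Squarefree M → ¬ 2 ∣ M →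
    ¬ 3 ∣ M → ((M % 3 = 1 → GP 24 (2 * M)) ∧ GP 12 (6 * M)) := by
  intro M
  induction M using Nat.strong_induction_on with
  | _ M ih =>
  intro hs h2 h3
  have ih' : ∀ e, e ∣ M → e < M → ((e % 3 = 1 → GP 24 (2 * e)) ∧ GP 12 (6 * e)) :=
    fun e he hlt => ih e hlt (hs.squarefree_of_dvd he) (fun h => h2 (h.trans he))
      (fun h => h3 (h.trans he))
  exact ⟨fun hM3 => two hREL hPCE hs h2 h3 hM3 ih', six hREL hPCE hCP hs h2 h3 ih'⟩

/-- **PARE** -/
theorem t_PARE (hREL : S_RELG) (hPCE : S_PCE) (hCP : S_CP3E) : S_PARE := by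
  have hodd : ∀ g z : ℤ, Odd (g + 2 * z) ↔ Odd g := by
    intro g z
    rw [Int.odd_add]
    exact ⟨fun h => h.2 (even_two_mul z), fun h => ⟨fun _ => even_two_mul z, fun _ => h⟩⟩
  intro n hn
  have hs : Squarefree n := by rcases hn with h | h <;> exact h.1
  have h12 : n % 12 = 2 ∨ n % 12 = 6 := by
    rcases hn with h | h
    · exact Or.inl h.2
    · exact Or.inr h.2
  obtain ⟨g', hg', hQ⟩ := t_RE n hs (by omega)
  have h0 : (2 : ℤ) ^ n.primeFactors.card ≠ 0 := by positivity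
  rcases h12 with h12 | h12
  · obtain ⟨M, rfl⟩ : ∃ M, n = 2 * M := ⟨n / 2, by omega⟩
    obtain ⟨g, z, h1, h2⟩ := (main hREL hPCE hCP M (hs.squarefree_of_dvd (Dvd.intro_left _ rfl))
      (by omega) (by omega)).1 (by omega)
    unfold RN at h1
    unfold CN at h2
    rw [if_neg (by omega), if_neg (by omega), hg'] at h1
    rw [if_neg (by omega)] at h2
    have hgg : g = g' := by
      have : (24 : ℤ) * 2 ^ (2 * M).primeFactors.card * g =
          24 * 2 ^ (2 * M).primeFactors.card * g' := by rw [← h1]; ring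
      exact mul_left_cancel₀ (by positivity) this
    subst hgg
    by_cases h8 : (2 * M) % 8 = 2
    · rw [if_pos h8, if_neg (by omega)] at h2
      refine ⟨-(g + 2 * z), ?_, by rw [odd_neg, hodd, hQ]⟩
      linarith
    · rw [if_neg h8, if_neg (by omega)] at h2
      refine ⟨g + 2 * z, ?_, by rw [hodd, hQ]⟩
      linarith
  · obtain ⟨M, rfl⟩ : ∃ M, n = 6 * M := ⟨n / 6, by omega⟩
    have h3 : ¬ 3 ∣ M := by
      rintro ⟨x, rfl⟩
      have := Nat.isUnit_iff.1 (hs 3 ⟨2 * x, by ring⟩)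
      omega
    obtain ⟨g, z, h1, h2⟩ := (main hREL hPCE hCP M (hs.squarefree_of_dvd (Dvd.intro_left _ rfl))
      (by omega) h3).2
    unfold RN at h1
    unfold CN at h2
    rw [if_neg (by omega), if_pos (by omega), hg'] at h1
    rw [if_neg (by omega)] at h2
    have hgg : g = g' := by
      have : (12 : ℤ) * 2 ^ (6 * M).primeFactors.card * g =
          12 * 2 ^ (6 * M).primeFactors.card * g' := by rw [← h1]; ring
      exact mul_left_cancel₀ (by positivity) this
    subst hgg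
    by_cases h8 : (6 * M) % 8 = 2
    · rw [if_pos h8, if_pos (by omega)] at h2
      refine ⟨g + 2 * z, ?_, by rw [hodd, hQ]⟩
      linarith
    · rw [if_neg h8, if_pos (by omega)] at h2
      refine ⟨-(g + 2 * z), ?_, by rw [odd_neg, hodd, hQ]⟩
      linarith

end Pool.Agent.N42.P24x
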