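import Pool.Agent.N42.P24x.Div

/-!
# P24x: the sums of the numbers of pairs over the divisors, even discriminants
-/

set_option autoImplicit false

namespace Pool.Agent.N42.P24x

open Finset Matrix
open Pool.Agent.Z700 (V3 vec cp hh fac chi12)
open Pool.Agent.N871.P15 (Sg)
open Pool.Agent.N877.P24
open Pool.Agent.N878.P24 (T0 mem_T0 GG Hy Hz hy_of hz_of c3 c3_eq prod_split sum_symm fact_nine)

/-- the sum of the numbers of pairs with inner product `3 c`, `c ≡ 2 mod 4` -/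
noncomputable def Ssum (B n1 n2 : ℕ) : ℤ :=
  ∑ c ∈ Ioo (-(B : ℤ)) B, if c % 4 = 2 then (cp n1 (3 * c) n2 : ℤ) else 0

/-- the sum of the numbers of pairs with inner product `c ≡ 2 mod 4`, count at `3` -/
noncomputable def Saux (B n1 n2 : ℕ) : ℤ :=
  ∑ c ∈ Ioo (-(B : ℤ)) B, if c % 4 = 2 then
    (if (3 : ℤ) ∣ n1 * n2 - c ^ 2 then (cp n1 c n2 : ℤ) + cp3 n1 c n2 else 0) else 0

theorem sum_three (B : ℕ) (g : ℤ → ℤ) (hg : ∀ b, ¬ (3 : ℤ) ∣ b → g b = 0) :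
    ∑ b ∈ Ioo (-((3 * B : ℕ) : ℤ)) ((3 * B : ℕ) : ℤ), g b = ∑ c ∈ Ioo (-(B : ℤ)) B, g (3 * c) := by
  rw [← Finset.sum_filter_add_sum_filter_not _ (fun b : ℤ => (3 : ℤ) ∣ b)]
  have h0 : ∑ b ∈ (Ioo (-((3 * B : ℕ) : ℤ)) ((3 * B : ℕ) : ℤ)).filter (fun b => ¬ (3 : ℤ) ∣ b),
      g b = 0 := Finset.sum_eq_zero fun b hb => hg b (Finset.mem_filter.1 hb).2
  rw [h0, add_zero]
  symm
  refine Finset.sum_nbij' (fun c => 3 * c) (fun b => b / 3) ?_ ?_ ?_ ?_ ?_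
  · intro c hc
    rw [Finset.mem_Ioo] at hc
    rw [Finset.mem_filter, Finset.mem_Ioo]
    push_cast
    exact ⟨⟨by omega, by omega⟩, Dvd.intro _ rfl⟩
  · intro b hb
    rw [Finset.mem_filter, Finset.mem_Ioo] at hb
    push_cast at hb
    rw [Finset.mem_Ioo]
    obtain ⟨⟨h1, h2⟩, c, rfl⟩ := hb
    constructor <;> omega
  · intro c _
    show 3 * c / 3 = c
    omega
  · intro b hb
    rw [Finset.mem_filter] at hb
    obtain ⟨_, c, rfl⟩ := hb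
    show 3 * (3 * c / 3) = 3 * c
    omega
  · intro c _
    rfl

theorem kk2_eq {n1 n2 : ℕ} (h4 : n1 % 4 = 2) (h8 : n2 % 8 = 3) (b : ℤ) :
    kk2 n1 n2 b = if b % 4 = 2 then 1 else 0 := by
  unfold kk2
  have a1 : ¬ (n1 % 8 = 3 ∧ n2 % 8 = 3) := by omega
  have a2 : n1 % 8 = 3 ∨ n2 % 8 = 3 := Or.inr h8
  rw [if_neg a1, if_pos a2]

theorem relS (hREL : S_RELG) {B n1 n2 : ℕ} (h1 : ClR n1) (h2 : ClR n2) (h4 : n1 % 4 = 2)
    (h8 : n2 % 8 = 3) (h3 : 3 ∣ n1 ∨ 3 ∣ n2) (hB : n1 * n2 < 9 * B ^ 2) (hB0 : 0 < B) :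
    48 * Ssum B n1 n2 = 3 * RN n1 * RN n2 + CN n1 * CN n2 := by
  rw [← hREL n1 n2 h1 h2 ((3 * B : ℕ) : ℤ) (by
    have : ((n1 * n2 : ℕ) : ℤ) < ((9 * B ^ 2 : ℕ) : ℤ) := by exact_mod_cast hB
    push_cast at this ⊢
    linarith) (by push_cast; positivity)]
  congr 1
  rw [sum_three]
  · unfold Ssum
    refine Finset.sum_congr rfl fun c _ => ?_
    rw [kk2_eq h4 h8]
    unfold kk3
    rw [if_pos h3, if_pos (Dvd.intro c rfl : (3 : ℤ) ∣ 3 * c)]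
    by_cases hc : c % 4 = 2
    · have hc' : 3 * c % 4 = 2 := by omega
      rw [if_pos hc, if_pos hc', one_mul]
    · have hc' : ¬ 3 * c % 4 = 2 := by omega
      rw [if_neg hc, if_neg hc', zero_mul]
  · intro b hb
    unfold kk3
    rw [if_pos h3, if_neg hb, mul_zero]

theorem relAux (hREL : S_RELG) {B n1 n2 : ℕ} (h1 : ClR n1) (h2 : ClR n2) (h4 : n1 % 4 = 2)
    (h8 : n2 % 8 = 3) (h3 : ¬ 3 ∣ n1) (h3' : ¬ 3 ∣ n2) (hB : n1 * n2 < B ^ 2) (hB0 : 0 < B) :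
    48 * Saux B n1 n2 = 3 * RN n1 * RN n2 + CN n1 * CN n2 := by
  rw [← hREL n1 n2 h1 h2 (B : ℤ) (by exact_mod_cast hB) (by exact_mod_cast hB0)]
  congr 1
  unfold Saux
  refine Finset.sum_congr rfl fun c _ => ?_
  rw [kk2_eq h4 h8]
  unfold kk3
  rw [if_neg (by omega : ¬ (3 ∣ n1 ∨ 3 ∣ n2))]
  by_cases hc : c % 4 = 2
  · rw [if_pos hc, if_pos hc, one_mul]
  · rw [if_neg hc, if_neg hc, zero_mul]

/-! ### the local evaluation -/

/-- twice an odd number -/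
theorem c_half {c : ℤ} (hc : c % 4 = 2) : ∃ b : ℤ, c ^ 2 = 4 * (8 * b + 1) := by
  obtain ⟨x, hx⟩ : ∃ x, c = 2 * (2 * x + 1) := ⟨c / 4, by omega⟩
  obtain ⟨y, hy⟩ := Int.even_mul_succ_self x
  refine ⟨y, ?_⟩
  rw [hx]
  linear_combination 16 * hy

theorem fact_two {D u : ℕ} (hu : D = 2 * u) (ho : u % 2 = 1) : D.factorization 2 = 1 := by
  rw [hu, Nat.factorization_mul (by norm_num) (by omega), Finsupp.add_apply,
    Nat.prime_two.factorization_self, Nat.factorization_eq_zero_of_not_dvd (by omega)]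

theorem fact_three {D u : ℕ} (hu : D = 3 * u) (ho : ¬ 3 ∣ u) : D.factorization 3 = 1 := by
  rw [hu, Nat.factorization_mul (by norm_num) (by rintro rfl; exact ho (dvd_zero _)),
    Finsupp.add_apply, Nat.prime_three.factorization_self, Nat.factorization_eq_zero_of_not_dvd ho]

/-- the data of a discriminant `6 M - 9 c²` -/
theorem dat2 {M D : ℕ} {c : ℤ} (hs : Squarefree M) (h2 : ¬ 2 ∣ M) (h3 : ¬ 3 ∣ M) (hc : c % 4 = 2)
    (hD : (D : ℤ) = 6 * M - 9 * c ^ 2) (hD0 : 0 < D) :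
    D.factorization 2 = 1 ∧ D.factorization 3 = 1 ∧ Hy 6 M D ∧ Hz M D ∧
      (∃ u, D = 2 * u ∧ (u + 2) % 8 = (3 * M) % 8) ∧ ∃ u, D = 3 * u ∧ u % 3 = (2 * M) % 3 := by
  obtain ⟨b, hb⟩ := c_half hc
  have e1 : (D : ℤ) = 6 * M - 36 * (8 * b + 1) := by rw [hD, hb]; ring
  obtain ⟨u, hu⟩ : ∃ u, D = 2 * u := ⟨D / 2, by omega⟩
  have hDD : (D : ℤ) = (6 : ℕ) * M - (3 * c) ^ 2 := by rw [hD]; push_cast; ring
  refine ⟨fact_two hu (by omega), ?_, ?_, ?_, ⟨u, hu, by omega⟩, ?_⟩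
  · obtain ⟨v, hv⟩ : ∃ v, D = 3 * v := ⟨D / 3, by omega⟩
    exact fact_three hv (by omega)
  · refine hy_of (q' := 6) (b := 3 * c) hs hD0.ne' hDD ?_
    intro l hl l2 l3
    exact ⟨not_dvd_six hl l2 l3 dvd_rfl, fun x => rfl⟩
  · exact hz_of (q' := 6) (b := 3 * c) hDD
  · obtain ⟨v, hv⟩ : ∃ v, D = 3 * v := ⟨D / 3, by omega⟩
    exact ⟨v, hv, by omega⟩

theorem hz_nine {M E : ℕ} {c : ℤ} (hE : (E : ℤ) = 2 * M - c ^ 2) : Hz M (9 * E) := by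
  refine hz_of (q' := 18) (b := 3 * c) ?_
  push_cast
  rw [hE]
  ring

/-- the data of a discriminant `2 M - c²` -/
theorem dat6 {M E : ℕ} {c : ℤ} (hs : Squarefree M) (h2 : ¬ 2 ∣ M) (hc : c % 4 = 2)
    (hE : (E : ℤ) = 2 * M - c ^ 2) (hE0 : 0 < E) :
    E.factorization 2 = 1 ∧ Hy 2 M (9 * E) ∧ Hy 2 M E ∧ Hz M E ∧
      (∃ u, E = 2 * u ∧ (u + 2) % 8 = M % 8) := by
  obtain ⟨b, hb⟩ := c_half hc
  have e1 : (E : ℤ) = 2 * M - 4 * (8 * b + 1) := by rw [hE, hb]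
  obtain ⟨u, hu⟩ : ∃ u, E = 2 * u := ⟨E / 2, by omega⟩
  refine ⟨fact_two hu (by omega), ?_, ?_, ?_, ⟨u, hu, by omega⟩⟩
  · refine hy_of (q' := 18) (b := 3 * c) hs (by omega) (by push_cast; rw [hE]; ring) ?_
    intro l hl l2 l3
    have h3' : ¬ l ∣ 3 := fun h => l3 ((Nat.prime_dvd_prime_iff_eq hl Nat.prime_three).1 h)
    refine ⟨?_, fun x => ?_⟩
    · intro h
      have e : (18 : ℕ) = 6 * 3 := by norm_num
      rw [e] at h
      rcases (Nat.Prime.dvd_mul hl).1 h with h | h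
      · exact not_dvd_six hl l2 l3 dvd_rfl h
      · exact h3' h
    · have e : ((18 * x : ℕ) : ℤ) = (3 : ℤ) ^ 2 * ((2 * x : ℕ) : ℤ) := by push_cast; ring
      rw [e, jacobiSym.mul_left, jacobiSym.sq_one', one_mul]
      rw [Int.gcd_comm]
      have : Nat.Coprime l 3 := (Nat.coprime_primes hl Nat.prime_three).2 l3
      simpa [Int.gcd] using this
  · refine hy_of (q' := 2) (b := c) hs (by omega) (by push_cast; rw [hE]) ?_
    intro l hl l2 l3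
    exact ⟨not_dvd_six hl l2 l3 (by norm_num), fun x => rfl⟩
  · exact hz_of (q' := 2) (b := c) (by push_cast; rw [hE])

theorem sqf_mul {a e M : ℕ} (ha : a = 2 ∨ a = 6) (hs : Squarefree M) (h2 : ¬ 2 ∣ M) (h3 : ¬ 3 ∣ M)
    (he : e ∣ M) : Squarefree (a * e) := by
  have c2 : Nat.Coprime 2 e :=
    (Nat.Prime.coprime_iff_not_dvd Nat.prime_two).2 fun h => h2 (h.trans he)
  have c3' : Nat.Coprime 3 e :=
    (Nat.Prime.coprime_iff_not_dvd Nat.prime_three).2 fun h => h3 (h.trans he)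
  rw [Nat.squarefree_mul_iff]
  rcases ha with rfl | rfl
  · exact ⟨c2, Nat.prime_two.squarefree, hs.squarefree_of_dvd he⟩
  · refine ⟨?_, ?_, hs.squarefree_of_dvd he⟩
    · have : (6 : ℕ) = 2 * 3 := by norm_num
      rw [this]
      exact Nat.Coprime.mul_left c2 c3'
    · have : (6 : ℕ) = 2 * 3 := by norm_num
      rw [this, Nat.squarefree_mul_iff]
      exact ⟨by norm_num, Nat.prime_two.squarefree, Nat.prime_three.squarefree⟩

theorem e_odd {e M : ℕ} (h2 : ¬ 2 ∣ M) (he : e ∣ M) : e % 2 = 1 := by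
  have : ¬ 2 ∣ e := fun h => h2 (h.trans he)
  omega

/-- pairs `(2 e, 3 M / e)` -/
theorem cpA (hPCE : S_PCE) {M e D : ℕ} {c : ℤ} (hs : Squarefree M) (h2 : ¬ 2 ∣ M) (h3 : ¬ 3 ∣ M)
    (he : e ∣ M) (h8 : e % 8 = M % 8) (hc : c % 4 = 2)
    (hD : (D : ℤ) = 6 * M - 9 * c ^ 2) (hD0 : 0 < D) :
    (cp (2 * e : ℕ) (3 * c) (3 * (M / e) : ℕ) : ℤ) = 48 * GG (2 * e) D := by
  obtain ⟨d1, d2, d3, d4, ⟨u, hu, hu8⟩, v, hv, hv3⟩ := dat2 hs h2 h3 hc hD hD0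
  have he2 := e_odd h2 he
  have hMe : e * (M / e) = M := Nat.mul_div_cancel' he
  have hN : 2 * e * (3 * (M / e)) = 6 * M := by
    calc 2 * e * (3 * (M / e)) = 6 * (e * (M / e)) := by ring
      _ = 6 * M := by rw [hMe]
  have hNZ : ((2 * e : ℕ) : ℤ) * ((3 * (M / e) : ℕ) : ℤ) = ((6 * M : ℕ) : ℤ) := by
    exact_mod_cast hN
  rw [hPCE (2 * e) (3 * (M / e)) (3 * c) D (sqf_mul (Or.inl rfl) hs h2 h3 he) (by omega) hD0 (by
    rw [hNZ, hD]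
    push_cast
    ring)]
  have hsp : le (2 * e) D = fac (2 * e) D 3 * GG (2 * e) D := prod_split (by omega) hD0.ne'
  rw [hsp, pfA' hs h2 h3 d3 d4 hD0.ne' d1 he d2 hu hu8 (by omega)]
  ring

theorem cpA_zero {M e D : ℕ} {c : ℤ} (hs : Squarefree M) (h2 : ¬ 2 ∣ M) (h3 : ¬ 3 ∣ M)
    (he : e ∣ M) (h8 : e % 8 = M % 8) (hc : c % 4 = 2)
    (hD : (D : ℤ) = 6 * M - 9 * c ^ 2) (hD0 : 0 < D) (he3 : e % 3 = 2) : GG (2 * e) D = 0 := by
  obtain ⟨d1, d2, d3, d4, ⟨u, hu, hu8⟩, v, hv, hv3⟩ := dat2 hs h2 h3 hc hD hD0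
  by_contra h
  have := pfA hs h2 h3 d3 d4 hD0.ne' d1 he (by rw [d2]; decide) hu hu8 (by omega) h
  rw [c3_eq] at this
  simp [he3] at this

/-- pairs `(6 e, M / e)` -/
theorem cpB (hPCE : S_PCE) {M e D : ℕ} {c : ℤ} (hs : Squarefree M) (h2 : ¬ 2 ∣ M) (h3 : ¬ 3 ∣ M)
    (he : e ∣ M) (h8 : e % 8 = (3 * M) % 8) (hc : c % 4 = 2)
    (hD : (D : ℤ) = 6 * M - 9 * c ^ 2) (hD0 : 0 < D) :
    (cp (6 * e : ℕ) (3 * c) (M / e : ℕ) : ℤ) = 48 * GG (6 * e) D ∧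
    (M % 3 = 1 → e % 3 = 1 → (cp (6 * e : ℕ) (3 * c) (M / e : ℕ) : ℤ) = 0) := by
  obtain ⟨d1, d2, d3, d4, ⟨u, hu, hu8⟩, v, hv, hv3⟩ := dat2 hs h2 h3 hc hD hD0
  have he2 := e_odd h2 he
  have hMe : e * (M / e) = M := Nat.mul_div_cancel' he
  have hN : 6 * e * (M / e) = 6 * M := by
    calc 6 * e * (M / e) = 6 * (e * (M / e)) := by ring
      _ = 6 * M := by rw [hMe]
  have hNZ : ((6 * e : ℕ) : ℤ) * ((M / e : ℕ) : ℤ) = ((6 * M : ℕ) : ℤ) := by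
    exact_mod_cast hN
  have hP := hPCE (6 * e) (M / e) (3 * c) D (sqf_mul (Or.inr rfl) hs h2 h3 he) (by omega) hD0 (by
    rw [hNZ, hD]
    push_cast
    ring)
  have hsp : le (6 * e) D = fac (6 * e) D 3 * GG (6 * e) D := prod_split (by omega) hD0.ne'
  rw [hP, hsp]
  refine ⟨?_, fun hM3 he3 => ?_⟩
  · rw [pfB hs h2 h3 d3 d4 hD0.ne' d1 he hu hu8 (by omega)]
    ring
  · have hf : fac (6 * e) D 3 = 0 := by
      rw [fac, if_pos ⟨2 * e, by ring⟩, hh, d2, if_neg (by decide), pow_one]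
      have e6 : 6 * e / 3 = 2 * e := by omega
      have e7 : D / 3 = v := by omega
      rw [e6, e7]
      have : jacobiSym (-((2 * e * v : ℕ) : ℤ)) 3 = jacobiSym (-1) 3 := by
        apply jacobiSym.mod_left'
        have h4 : (2 * e * v) % 3 = 1 := by
          rw [Nat.mul_mod, hv3]
          have a1 : (2 * e) % 3 = 2 := by omega
          have a2 : (2 * M) % 3 = 2 := by omega
          rw [a1, a2]
        generalize 2 * e * v = x at h4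
        show (-(x : ℤ)) % ((3 : ℕ) : ℤ) = (-1) % ((3 : ℕ) : ℤ)
        omega
      rw [this]
      norm_num
    rw [hf]
    ring

/-- pairs `(6 e, 3 M / e)` -/
theorem cpC (hPCE : S_PCE) {M e E : ℕ} {c : ℤ} (hs : Squarefree M) (h2 : ¬ 2 ∣ M) (h3 : ¬ 3 ∣ M)
    (he : e ∣ M) (h8 : e % 8 = M % 8) (hc : c % 4 = 2)
    (hE : (E : ℤ) = 2 * M - c ^ 2) (hE0 : 0 < E) :
    (cp (6 * e : ℕ) (3 * c) (3 * (M / e) : ℕ) : ℤ) = 48 * GG (6 * e) (9 * E) := by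
  obtain ⟨d1, d2, d3, d4, u, hu, hu8⟩ := dat6 hs h2 hc hE hE0
  have he2 := e_odd h2 he
  have hMe : e * (M / e) = M := Nat.mul_div_cancel' he
  have hN : 6 * e * (3 * (M / e)) = 18 * M := by
    calc 6 * e * (3 * (M / e)) = 18 * (e * (M / e)) := by ring
      _ = 18 * M := by rw [hMe]
  have hNZ : ((6 * e : ℕ) : ℤ) * ((3 * (M / e) : ℕ) : ℤ) = ((18 * M : ℕ) : ℤ) := by
    exact_mod_cast hN
  rw [hPCE (6 * e) (3 * (M / e)) (3 * c) (9 * E) (sqf_mul (Or.inr rfl) hs h2 h3 he) (by omega)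
    (by omega) (by
      rw [hNZ]
      push_cast
      rw [hE]
      ring)]
  have hsp : le (6 * e) (9 * E) = fac (6 * e) (9 * E) 3 * GG (6 * e) (9 * E) :=
    prod_split (by omega) (by omega)
  rw [hsp, pfB hs h2 h3 d2 (hz_nine hE) (by omega : 9 * E ≠ 0)
    (by rw [fact_nine hE0.ne' (by norm_num)]; exact d1) he
    (u := 9 * u) (r := M) (by omega) (by omega) h8]
  ring

/-- pairs `(2 e, M / e)` -/
theorem cpD (hPCE : S_PCE) (hCP : S_CP3E) {M e E : ℕ} {c : ℤ} (hs : Squarefree M) (h2 : ¬ 2 ∣ M)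
    (h3 : ¬ 3 ∣ M) (he : e ∣ M) (he3 : e % 3 = 1) (hM3 : M % 3 = 2)
    (hE : (E : ℤ) = 2 * M - c ^ 2) (hE0 : 0 < E) :
    (if (3 : ℤ) ∣ ((2 * e : ℕ) : ℤ) * ((M / e : ℕ) : ℤ) - c ^ 2 then
      (cp (2 * e : ℕ) c (M / e : ℕ) : ℤ) + cp3 (2 * e : ℕ) c (M / e : ℕ) else 0) =
      48 * ((E.factorization 3 : ℤ) * GG (2 * e) E) := by
  have he2 := e_odd h2 he
  have hMe : e * (M / e) = M := Nat.mul_div_cancel' he
  have hN' : 2 * e * (M / e) = 2 * M := by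
    calc 2 * e * (M / e) = 2 * (e * (M / e)) := by ring
      _ = 2 * M := by rw [hMe]
  have hNZ : ((2 * e : ℕ) : ℤ) * ((M / e : ℕ) : ℤ) = ((2 * M : ℕ) : ℤ) := by
    exact_mod_cast hN'
  have hN : (E : ℤ) = ((2 * e : ℕ) : ℤ) * ((M / e : ℕ) : ℤ) - c ^ 2 := by
    rw [hNZ, hE]
    push_cast
    ring
  rw [← hN]
  split_ifs with h
  · have h3E : 3 ∣ E := by exact_mod_cast h
    have hc3 : ¬ (3 : ℤ) ∣ c := by
      rintro ⟨x, rfl⟩
      have : (E : ℤ) = 2 * M - 3 * (3 * x ^ 2) := by rw [hE]; ring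
      omega
    have hMe3 : (M / e) % 3 = 2 := by
      have h6 : (e * (M / e)) % 3 = 2 := by rw [hMe]; exact hM3
      rw [Nat.mul_mod, he3, one_mul, Nat.mod_mod] at h6
      exact h6
    have k1 := hPCE (2 * e) (M / e) c E (sqf_mul (Or.inl rfl) hs h2 h3 he) (by omega) hE0 hN
    have k2 := hCP (2 * e) (M / e) c E ⟨sqf_mul (Or.inl rfl) hs h2 h3 he, by omega⟩ hMe3 hc3 hE0 hN
    have hsp : le (2 * e) E = fac (2 * e) E 3 * GG (2 * e) E := prod_split h3E hE0.ne'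
    have hle3 : le3 (2 * e) E = GG (2 * e) E := rfl
    have hf : fac (2 * e) E 3 = (E.factorization 3 : ℤ) + 1 := by
      rw [fac, if_neg (by omega)]
      have : jacobiSym (-((2 * e : ℕ) : ℤ)) 3 = 1 := by
        have : jacobiSym (-((2 * e : ℕ) : ℤ)) 3 = jacobiSym 1 3 := by
          apply jacobiSym.mod_left'
          push_cast
          omega
        rw [this]; norm_num
      rw [this]
      simp
    rw [hsp, hf] at k1
    rw [hle3] at k2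
    linear_combination 2 * k1 - k2
  · have h3E : ¬ 3 ∣ E := fun h' => h (by exact_mod_cast h')
    rw [Nat.factorization_eq_zero_of_not_dvd h3E]
    simp

end Pool.Agent.N42.P24x
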